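import Mathlib
import Pool.Agent.LibFG78.NT4
import Pool.Agent.LibFG78.FIf

/-! # Upper bound for the fourth moment twisted by a nonnegative Dirichlet polynomial -/

set_option autoImplicit false

namespace Pool.Agent.LibST15

open MeasureTheory Filter Topology Pool.Agent.LibMM99 Pool.Agent.LibTG78 Pool.Agent.LibFG78
open scoped ComplexConjugate

/-- T3 -/
theorem fourth_le : ∃ C δ T0 : ℝ, 0 < C ∧ 0 < δ ∧ 3 ≤ T0 ∧ ∀ (a L A T : ℝ) (V : Om → ℝ), 1 ≤ L →
    L ≤ Real.log T → T0 ≤ T → a ≤ δ * Real.log T → IsPolyR a V → DependsOn V (coo 1 (Real.exp L)) →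
    (∀ x, 0 ≤ V x) → (∀ s : ℂ, Adm s L → ∫ x, V x ∂(nu4 s L) ≤ A) →
    (1 / T) * (∫ t in (0 : ℝ)..T, ‖riemannZeta (1 / 2 + t * Complex.I)‖ ^ 4 * V (xt t)) ≤
      C * Real.log T ^ 4 * A + C := by
  obtain ⟨C, η, d0, hC, hη, hd0, hd01, h⟩ := mom4
  refine ⟨Real.exp 2 * (C + 1), η, max 3 (1 / d0), by positivity, hη, le_max_left _ _, ?_⟩
  intro a L A T V hL hLT hT ha hV hVd hV0 hA
  have hT3 : 3 ≤ T := (le_max_left _ _).trans hT
  have hT0 : 0 < T := by linarith
  have hTd : 1 / d0 ≤ T := (le_max_right _ _).trans hT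
  have hd : 0 < 1 / T := by positivity
  have hdd : 1 / T ≤ d0 := by
    rw [div_le_iff₀ hT0]
    rw [div_le_iff₀ hd0] at hTd
    linarith
  have e1 : Real.log (1 / (1 / T)) = Real.log T := by rw [one_div_one_div]
  have hlogp : 1 ≤ Real.log T := hL.trans hLT
  have hA' : ∀ s : ℂ, Adm s L → ∫ x, |V x| ∂(nu4 s L) ≤ A := fun s hs => by
    have e : (fun x => |V x|) = V := funext fun x => abs_of_nonneg (hV0 x)
    rw [e]
    exact hA s hs
  have hadm : Adm 0 L := ⟨hL, by rw [norm_zero]; positivity⟩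
  have hA0 : 0 ≤ A := (integral_nonneg fun x => hV0 x).trans (hA 0 hadm)
  have h1 := h a L A (1 / T) V hL hd hdd (by rw [e1]; exact ha) (by rw [e1]; exact hLT) hV hVd hA'
  rw [e1] at h1
  have h2 := (abs_le.1 h1).2
  have h3 : (1 / T) ^ η ≤ 1 := Real.rpow_le_one hd.le (by rw [div_le_one hT0]; linarith) hη.le
  have h4 : ∫ x, V x ∂(nu4 0 L) ≤ A := hA 0 hadm
  have hpi : 1 / (4 * Real.pi ^ 2) ≤ 1 := by
    rw [div_le_one (by positivity)]
    have := Real.pi_gt_three
    nlinarith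
  have h40 : 0 ≤ ∫ x, V x ∂(nu4 0 L) := integral_nonneg fun x => hV0 x
  have h5 : 1 / (4 * Real.pi ^ 2) * Real.log T ^ 4 * ∫ x, V x ∂(nu4 0 L) ≤ Real.log T ^ 4 * A := by
    have h6 : (0 : ℝ) ≤ Real.log T ^ 4 := by positivity
    calc 1 / (4 * Real.pi ^ 2) * Real.log T ^ 4 * ∫ x, V x ∂(nu4 0 L)
        ≤ 1 * Real.log T ^ 4 * ∫ x, V x ∂(nu4 0 L) := by gcongr
      _ ≤ Real.log T ^ 4 * A := by
          rw [one_mul]
          exact mul_le_mul_of_nonneg_left h4 h6
  have h6 : C * L * Real.log T ^ 3 * A ≤ C * Real.log T ^ 4 * A := by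
    have h7 : L * Real.log T ^ 3 ≤ Real.log T ^ 4 := by
      have h8 : (0 : ℝ) ≤ Real.log T ^ 3 := by positivity
      have := mul_le_mul_of_nonneg_right hLT h8
      linarith [show Real.log T * Real.log T ^ 3 = Real.log T ^ 4 by ring]
    have h9 := mul_le_mul_of_nonneg_left (mul_le_mul_of_nonneg_right h7 hA0) hC.le
    linarith
  have h7 : C * (1 / T) ^ η ≤ C := by
    have := mul_le_mul_of_nonneg_left h3 hC.le
    linarith
  -- the weighted integral
  set I : ℝ := ∫ t in Set.Ioi (0 : ℝ), ‖riemannZeta (1 / 2 + t * Complex.I)‖ ^ 4 * Real.exp (-(2 * (1 / T) * t)) * V (xt t) with hI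
  have h8 : 1 / T * I ≤ (C + 1) * Real.log T ^ 4 * A + C := by nlinarith
  -- comparison
  have hVc : Continuous V := hV.continuous
  obtain ⟨M, hM⟩ := (isCompact_univ (X := Om)).exists_bound_of_continuousOn hVc.continuousOn
  have hint : IntegrableOn (fun t : ℝ => ‖riemannZeta (1 / 2 + t * Complex.I)‖ ^ 4 * Real.exp (-(2 * (1 / T) * t)) *
      V (xt t)) (Set.Ioi 0) := by
    have h9 := (zeta4_int hd)
    refine Integrable.mul_bdd (c := M) h9 ?_ ?_
    · exact (hVc.comp continuous_xt).aestronglyMeasurable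
    · exact Eventually.of_forall fun t => hM (xt t) (Set.mem_univ _)
  have hcont : Continuous fun t : ℝ => ‖riemannZeta (1 / 2 + t * Complex.I)‖ ^ 4 * V (xt t) :=
    (D5_zeta_cont.norm.pow 4).mul (hVc.comp continuous_xt)
  have h9 : (∫ t in (0 : ℝ)..T, ‖riemannZeta (1 / 2 + t * Complex.I)‖ ^ 4 * V (xt t)) ≤ Real.exp 2 * I := by
    rw [intervalIntegral.integral_of_le hT0.le, hI, ← integral_const_mul]
    calc ∫ t in Set.Ioc 0 T, ‖riemannZeta (1 / 2 + t * Complex.I)‖ ^ 4 * V (xt t)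
        ≤ ∫ t in Set.Ioc 0 T, Real.exp 2 * (‖riemannZeta (1 / 2 + t * Complex.I)‖ ^ 4 * Real.exp (-(2 * (1 / T) * t)) *
            V (xt t)) := by
          refine setIntegral_mono_on ?_ ?_ measurableSet_Ioc ?_
          · exact (hcont.integrableOn_Icc).mono_set Set.Ioc_subset_Icc_self
          · exact (hint.mono_set Set.Ioc_subset_Ioi_self).const_mul _
          · intro t ht
            have h10 : 1 ≤ Real.exp 2 * Real.exp (-(2 * (1 / T) * t)) := by
              rw [← Real.exp_add]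
              refine Real.one_le_exp ?_
              have h11 : 1 / T * t ≤ 1 := by
                rw [one_div, inv_mul_le_iff₀ hT0]
                linarith [ht.2]
              linarith
            have h12 : 0 ≤ ‖riemannZeta (1 / 2 + t * Complex.I)‖ ^ 4 * V (xt t) := mul_nonneg (by positivity) (hV0 _)
            have h13 := mul_le_mul_of_nonneg_right h10 h12
            linarith
      _ ≤ _ := by
          refine setIntegral_mono_set (hint.const_mul _) ?_ (Eventually.of_forall Set.Ioc_subset_Ioi_self)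
          refine Eventually.of_forall fun t => ?_
          have := hV0 (xt t)
          exact mul_nonneg (Real.exp_pos _).le (mul_nonneg (by positivity) this)
  calc (1 / T) * (∫ t in (0 : ℝ)..T, ‖riemannZeta (1 / 2 + t * Complex.I)‖ ^ 4 * V (xt t))
      ≤ (1 / T) * (Real.exp 2 * I) := mul_le_mul_of_nonneg_left h9 hd.le
    _ = Real.exp 2 * (1 / T * I) := by ring
    _ ≤ Real.exp 2 * ((C + 1) * Real.log T ^ 4 * A + C) := mul_le_mul_of_nonneg_left h8 (Real.exp_pos _).le
    _ ≤ Real.exp 2 * (C + 1) * Real.log T ^ 4 * A + Real.exp 2 * (C + 1) := by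
        have := Real.exp_pos 2
        nlinarith

end Pool.Agent.LibST15
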