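import Mathlib

/-! # An average of a function with controlled moments -/

set_option autoImplicit false

namespace Pool.Agent.LibST15

open MeasureTheory Filter Topology
open scoped ENNReal

lemma int_le_lint {α : Type*} [MeasurableSpace α] {μ : Measure α} {f : α → ℝ} (hf : ∀ x, 0 ≤ f x) {B : ℝ}
    (hB : 0 ≤ B) (h : ∫⁻ x, ENNReal.ofReal (f x) ∂μ ≤ ENNReal.ofReal B) : ∫ x, f x ∂μ ≤ B := by
  by_cases hi : Integrable f μ
  · have h1 := ofReal_integral_eq_lintegral_ofReal hi (Eventually.of_forall hf)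
    rw [← h1] at h
    exact (ENNReal.ofReal_le_ofReal_iff hB).1 h
  · rw [integral_undef hi]; exact hB

lemma ofReal_int_le {α : Type*} [MeasurableSpace α] {μ : Measure α} {f : α → ℝ} (hf : ∀ x, 0 ≤ f x) :
    ENNReal.ofReal (∫ x, f x ∂μ) ≤ ∫⁻ x, ENNReal.ofReal (f x) ∂μ := by
  by_cases hi : Integrable f μ
  · rw [ofReal_integral_eq_lintegral_ofReal hi (Eventually.of_forall hf)]
  · rw [integral_undef hi]; simp

lemma young_enn {a c : ℝ≥0∞} {b : ℝ} (hb : 0 < b) : a ^ (2 : ℝ) * c ^ b ≤ a ^ (b + 2) + c ^ (b + 2) := by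
  rcases le_total a c with h | h
  · calc a ^ (2 : ℝ) * c ^ b ≤ c ^ (2 : ℝ) * c ^ b := by gcongr
      _ = c ^ (b + 2) := by
        rw [← ENNReal.rpow_add_of_nonneg _ _ (by norm_num) hb.le, add_comm]
      _ ≤ _ := le_add_self
  · calc a ^ (2 : ℝ) * c ^ b ≤ a ^ (2 : ℝ) * a ^ b := by gcongr
      _ = a ^ (b + 2) := by
        rw [← ENNReal.rpow_add_of_nonneg _ _ (by norm_num) hb.le, add_comm]
      _ ≤ _ := le_self_add

/-- Hoelder: the power of a mean -/
lemma pow_mean_le {μ : Measure ℝ} {z w : ℝ → ℝ≥0∞} (hz : Measurable z) (hw : Measurable w) {k : ℝ} (hk : 1 < k) :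
    (∫⁻ u, z u * w u ∂μ) ^ k ≤ (∫⁻ u, w u ∂μ) ^ (k - 1) * ∫⁻ u, z u ^ k * w u ∂μ := by
  have hk0 : 0 < k := by linarith
  obtain ⟨q, hq⟩ : ∃ q, q = k / (k - 1) := ⟨_, rfl⟩
  have hq0 : 0 < q := by rw [hq]; exact div_pos hk0 (by linarith)
  have hpq : k.HolderConjugate q := by
    rw [hq]
    exact Real.HolderConjugate.conjExponent hk
  have h1 := ENNReal.lintegral_mul_le_Lp_mul_Lq μ hpq (f := fun u => z u * w u ^ (1 / k))
    (g := fun u => w u ^ (1 / q)) (hz.mul (hw.pow_const _)).aemeasurable (hw.pow_const _).aemeasurable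
  have h2 : ∀ u, ((fun u => z u * w u ^ (1 / k)) * fun u => w u ^ (1 / q)) u = z u * w u := by
    intro u
    have h3 : 1 / k + 1 / q = 1 := by
      have := hpq.inv_add_inv_eq_one
      simpa [one_div] using this
    show z u * w u ^ (1 / k) * w u ^ (1 / q) = z u * w u
    rw [mul_assoc, ← ENNReal.rpow_add_of_nonneg _ _ (by positivity) (by positivity), h3, ENNReal.rpow_one]
  have h4 : ∀ u, (z u * w u ^ (1 / k)) ^ k = z u ^ k * w u := by
    intro u
    rw [ENNReal.mul_rpow_of_nonneg _ _ hk0.le, ← ENNReal.rpow_mul, one_div, inv_mul_cancel₀ hk0.ne',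
      ENNReal.rpow_one]
  have h5 : ∀ u, (w u ^ (1 / q)) ^ q = w u := by
    intro u
    rw [← ENNReal.rpow_mul, one_div, inv_mul_cancel₀ hq0.ne', ENNReal.rpow_one]
  simp only [h2, h4, h5] at h1
  calc (∫⁻ u, z u * w u ∂μ) ^ k ≤ ((∫⁻ u, z u ^ k * w u ∂μ) ^ (1 / k) * (∫⁻ u, w u ∂μ) ^ (1 / q)) ^ k := by
        gcongr
    _ = (∫⁻ u, z u ^ k * w u ∂μ) * (∫⁻ u, w u ∂μ) ^ (k - 1) := by
        rw [ENNReal.mul_rpow_of_nonneg _ _ hk0.le, ← ENNReal.rpow_mul, ← ENNReal.rpow_mul, one_div,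
          inv_mul_cancel₀ hk0.ne', ENNReal.rpow_one]
        congr 2
        rw [hq]
        have : k - 1 ≠ 0 := by linarith
        field_simp
    _ = _ := mul_comm _ _

end Pool.Agent.LibST15
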