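import Mathlib
import Pool.Agent.LibST15.TailAbs

set_option autoImplicit false

namespace Pool.Agent.LibST15

open MeasureTheory Filter Topology
open scoped ENNReal

lemma lint_decay {w : ℝ → ℝ} (hd : ∀ N : ℕ, ∃ C : ℝ, ∀ u, (1 + |u|) ^ N * w u ≤ C) (N : ℕ) :
    ∫⁻ u, ENNReal.ofReal ((1 + |u|) ^ N * w u) < ⊤ := by
  obtain ⟨C, hC⟩ := hd (N + 2)
  have h1 : ∀ u : ℝ, (1 + |u|) ^ N * w u ≤ C * (1 + ‖u‖) ^ (-(2 : ℝ)) := by
    intro u
    have h2 : 0 < 1 + |u| := by positivity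
    rw [Real.norm_eq_abs, Real.rpow_neg h2.le, ← div_eq_mul_inv, le_div_iff₀ (by positivity)]
    have h3 := hC u
    have h4 : (1 + |u|) ^ (2 : ℝ) = (1 + |u|) ^ (2 : ℕ) := by
      rw [← Real.rpow_natCast]; norm_num
    rw [h4]
    calc (1 + |u|) ^ N * w u * (1 + |u|) ^ 2 = (1 + |u|) ^ (N + 2) * w u := by ring
      _ ≤ C := h3
  have hi : Integrable (fun u : ℝ => C * (1 + ‖u‖) ^ (-(2 : ℝ))) :=
    (integrable_one_add_norm (by simp)).const_mul C
  calc _ ≤ ∫⁻ u, ENNReal.ofReal (C * (1 + ‖u‖) ^ (-(2 : ℝ))) :=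
        lintegral_mono fun u => ENNReal.ofReal_le_ofReal (h1 u)
    _ < ⊤ := hi.lintegral_lt_top

lemma log_shift {T g : ℝ} (hT : 3 ≤ T) (hg : 0 ≤ g) {N : ℕ} (hN : 1 + g ≤ N) (u : ℝ) :
    (T + |u|) * Real.log (T + |u|) ^ g ≤ T * Real.log T ^ g * (1 + |u|) ^ N := by
  have hT0 : 0 < T := by linarith
  have hu : 0 ≤ |u| := abs_nonneg u
  have hl1 : 1 ≤ Real.log T := by
    rw [Real.le_log_iff_exp_le hT0]
    linarith [Real.exp_one_lt_d9]
  have h1 : T + |u| ≤ T * (1 + |u|) := by nlinarith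
  have h2 : Real.log (T + |u|) ≤ Real.log T * (1 + |u|) := by
    calc Real.log (T + |u|) ≤ Real.log (T * (1 + |u|)) := Real.log_le_log (by positivity) h1
      _ = Real.log T + Real.log (1 + |u|) := Real.log_mul hT0.ne' (by positivity)
      _ ≤ Real.log T + |u| := by
        have := Real.log_le_sub_one_of_pos (show 0 < 1 + |u| by positivity)
        linarith
      _ ≤ _ := by nlinarith
  have h3 : Real.log (T + |u|) ^ g ≤ Real.log T ^ g * (1 + |u|) ^ g := by
    rw [← Real.mul_rpow (by linarith) (by positivity)]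
    exact Real.rpow_le_rpow (Real.log_nonneg (by linarith)) h2 hg
  calc (T + |u|) * Real.log (T + |u|) ^ g ≤ (T * (1 + |u|)) * (Real.log T ^ g * (1 + |u|) ^ g) := by
        have h5 : 0 ≤ Real.log (T + |u|) := Real.log_nonneg (by linarith)
        gcongr
    _ = T * Real.log T ^ g * ((1 + |u|) ^ (1 : ℝ) * (1 + |u|) ^ g) := by rw [Real.rpow_one]; ring
    _ = T * Real.log T ^ g * (1 + |u|) ^ (1 + g) := by rw [← Real.rpow_add (by positivity)]
    _ ≤ T * Real.log T ^ g * (1 + |u|) ^ (N : ℝ) := by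
        gcongr
        · linarith
    _ = _ := by rw [Real.rpow_natCast]

/-- the translates of the integral -/
lemma shift_le {z : ℝ → ℝ} (hz : Continuous z) (hz0 : ∀ t, 0 ≤ z t) (hev : ∀ t, z (-t) = z t) {k g C0 T0 : ℝ}
    (hk : 0 < k) (hg : 0 ≤ g) (hC0 : 0 < C0)
    (hup : ∀ T : ℝ, T0 ≤ T → (1 / T) * (∫ t in (0 : ℝ)..T, z t ^ k) ≤ C0 * Real.log T ^ g) {T h u : ℝ}
    (hT0 : T0 ≤ T) (hT3 : 3 ≤ T) (hh : 0 < h) (hh1 : h ≤ 1) {N : ℕ} (hN : 1 + g ≤ N) :
    ∫⁻ t in Set.Ioc (0 : ℝ) T, ENNReal.ofReal (z (t + h * u)) ^ k ≤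
      ENNReal.ofReal (2 * C0 * (T * Real.log T ^ g * (1 + |u|) ^ N)) := by
  obtain ⟨R, hR⟩ : ∃ R, R = T + |u| := ⟨_, rfl⟩
  have hu : 0 ≤ |u| := abs_nonneg u
  have hRT : T ≤ R := by rw [hR]; linarith
  have hR0 : 0 < R := by linarith
  have hzk : Continuous fun t => z t ^ k := hz.rpow_const fun _ => Or.inr hk.le
  have hpt : ∀ t, ENNReal.ofReal (z t) ^ k = ENNReal.ofReal (z t ^ k) := fun t =>
    ENNReal.ofReal_rpow_of_nonneg (hz0 t) hk.le
  have h1 : ∫⁻ t in Set.Ioc (0 : ℝ) T, ENNReal.ofReal (z (t + h * u)) ^ k ≤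
      ∫⁻ t in Set.Ioc (-R) R, ENNReal.ofReal (z t ^ k) := by
    have h2 : ∫⁻ t in Set.Ioc (0 : ℝ) T, ENNReal.ofReal (z (t + h * u)) ^ k =
        ∫⁻ t, (Set.Ioc (0 : ℝ) T).indicator (fun t => ENNReal.ofReal (z (t + h * u)) ^ k) t :=
      (lintegral_indicator measurableSet_Ioc _).symm
    have h3 : ∫⁻ t in Set.Ioc (-R) R, ENNReal.ofReal (z t ^ k) =
        ∫⁻ t, (Set.Ioc (-R) R).indicator (fun t => ENNReal.ofReal (z t ^ k)) (t + h * u) := by
      rw [lintegral_add_right_eq_self (fun t => (Set.Ioc (-R) R).indicator (fun t => ENNReal.ofReal (z t ^ k)) t)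
        (h * u), lintegral_indicator measurableSet_Ioc]
    rw [h2, h3]
    refine lintegral_mono fun t => ?_
    by_cases ht : t ∈ Set.Ioc (0 : ℝ) T
    · have ht' : t + h * u ∈ Set.Ioc (-R) R := by
        have h4 : |h * u| ≤ |u| := by
          rw [abs_mul, abs_of_pos hh]
          exact mul_le_of_le_one_left hu hh1
        have h5 := abs_le.1 h4
        rw [hR]
        exact ⟨by linarith [ht.1, h5.1], by linarith [ht.2, h5.2]⟩
      rw [Set.indicator_of_mem ht, Set.indicator_of_mem ht', hpt]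
    · rw [Set.indicator_of_notMem ht]
      exact bot_le
  refine h1.trans ?_
  have hint : IntegrableOn (fun t => z t ^ k) (Set.Ioc (-R) R) := by
    have := (hzk.intervalIntegrable (μ := volume) (-R) R)
    rwa [intervalIntegrable_iff_integrableOn_Ioc_of_le (by linarith)] at this
  rw [← ofReal_integral_eq_lintegral_ofReal hint (Eventually.of_forall fun t => Real.rpow_nonneg (hz0 t) _)]
  apply ENNReal.ofReal_le_ofReal
  rw [← intervalIntegral.integral_of_le (by linarith)]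
  have h6 : ∫ t in (-R)..R, z t ^ k = 2 * ∫ t in (0 : ℝ)..R, z t ^ k := by
    rw [← intervalIntegral.integral_add_adjacent_intervals (hzk.intervalIntegrable (-R) 0)
      (hzk.intervalIntegrable 0 R)]
    have h7 : ∫ t in (-R)..0, z t ^ k = ∫ t in (0 : ℝ)..R, z t ^ k := by
      have h8 := intervalIntegral.integral_comp_neg (f := fun t => z t ^ k) (a := 0) (b := R)
      simp only [hev, neg_zero] at h8
      exact h8.symm
    rw [h7]; ring
  rw [h6]
  have h9 := hup R (by linarith)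
  have h10 : ∫ t in (0 : ℝ)..R, z t ^ k ≤ C0 * (R * Real.log R ^ g) := by
    have h11 : R * ((1 / R) * (∫ t in (0 : ℝ)..R, z t ^ k)) = ∫ t in (0 : ℝ)..R, z t ^ k := by
      field_simp
    rw [← h11]
    calc _ ≤ R * (C0 * Real.log R ^ g) := mul_le_mul_of_nonneg_left h9 hR0.le
      _ = _ := by ring
  have h12 := log_shift hT3 hg hN u
  rw [← hR] at h12
  calc 2 * ∫ t in (0 : ℝ)..R, z t ^ k ≤ 2 * (C0 * (R * Real.log R ^ g)) := by linarith
    _ ≤ 2 * (C0 * (T * Real.log T ^ g * (1 + |u|) ^ N)) := by gcongr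
    _ = _ := by ring

/-- the averaged moment -/
theorem tail_abs {z w : ℝ → ℝ} (hz : Continuous z) (hz0 : ∀ t, 0 ≤ z t) (hev : ∀ t, z (-t) = z t)
    (hw : Continuous w) (hw0 : ∀ u, 0 ≤ w u) (hd : ∀ N : ℕ, ∃ C : ℝ, ∀ u, (1 + |u|) ^ N * w u ≤ C)
    {b g C0 T0 : ℝ} (hb : 0 < b) (hg : 0 ≤ g) (hC0 : 0 < C0)
    (hup : ∀ T : ℝ, T0 ≤ T → (1 / T) * (∫ t in (0 : ℝ)..T, z t ^ (b + 2)) ≤ C0 * Real.log T ^ g) :
    ∃ C A : ℝ, 0 < C ∧ 1 ≤ A ∧ ∀ T h : ℝ, A ≤ T → 0 < h → h ≤ 1 →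
      (1 / T) * (∫ t in (0 : ℝ)..T, z t ^ 2 * (∫ u : ℝ, z (t + h * u) * w u) ^ b) ≤ C * Real.log T ^ g := by
  obtain ⟨N, hN⟩ : ∃ N : ℕ, 1 + g ≤ N := exists_nat_ge _
  have hk : 1 < b + 2 := by linarith
  have hk0 : 0 < b + 2 := by linarith
  have hW0 : ∫⁻ u, ENNReal.ofReal (w u) < ⊤ := by
    have := lint_decay hd 0
    simpa using this
  have hWN := lint_decay hd N
  obtain ⟨I0, hI0⟩ : ∃ I0 : ℝ≥0∞, I0 = ∫⁻ u, ENNReal.ofReal (w u) := ⟨_, rfl⟩
  obtain ⟨I1, hI1⟩ : ∃ I1 : ℝ≥0∞, I1 = ∫⁻ u, ENNReal.ofReal ((1 + |u|) ^ N * w u) := ⟨_, rfl⟩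
  rw [← hI0] at hW0
  rw [← hI1] at hWN
  have hJ : I0 ^ (b + 2 - 1) * I1 < ⊤ :=
    ENNReal.mul_lt_top (ENNReal.rpow_lt_top_of_nonneg (by linarith) hW0.ne) hWN
  obtain ⟨J, hJJ⟩ : ∃ J : ℝ, J = (I0 ^ (b + 2 - 1) * I1).toReal := ⟨_, rfl⟩
  have hJ0 : 0 ≤ J := by rw [hJJ]; exact ENNReal.toReal_nonneg
  have hJe : I0 ^ (b + 2 - 1) * I1 = ENNReal.ofReal J := by
    rw [hJJ, ENNReal.ofReal_toReal hJ.ne]
  refine ⟨2 * C0 + 2 * C0 * J, max T0 3, by positivity, le_trans (by norm_num) (le_max_right _ _), ?_⟩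
  intro T h hT hh hh1
  have hTT0 : T0 ≤ T := le_trans (le_max_left _ _) hT
  have hT3 : 3 ≤ T := le_trans (le_max_right _ _) hT
  have hTp : 0 < T := by linarith
  obtain ⟨Q, hQ⟩ : ∃ Q, Q = T * Real.log T ^ g := ⟨_, rfl⟩
  have hlog : 0 < Real.log T := Real.log_pos (by linarith)
  have hQ0 : 0 < Q := by rw [hQ]; positivity
  have hG0 : ∀ t, 0 ≤ ∫ u : ℝ, z (t + h * u) * w u := fun t =>
    integral_nonneg fun u => mul_nonneg (hz0 _) (hw0 _)
  have hcw : Measurable fun u => ENNReal.ofReal (w u) := hw.measurable.ennreal_ofReal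
  have hcz : ∀ t, Measurable fun u => ENNReal.ofReal (z (t + h * u)) := fun t =>
    (hz.comp (by fun_prop : Continuous fun u : ℝ => t + h * u)).measurable.ennreal_ofReal
  -- pointwise
  have hpt : ∀ t, ENNReal.ofReal (z t ^ 2 * (∫ u : ℝ, z (t + h * u) * w u) ^ b) ≤
      ENNReal.ofReal (z t) ^ (b + 2) + I0 ^ (b + 2 - 1) *
        ∫⁻ u, ENNReal.ofReal (z (t + h * u)) ^ (b + 2) * ENNReal.ofReal (w u) := by
    intro t
    have h1 : ENNReal.ofReal (z t ^ 2 * (∫ u : ℝ, z (t + h * u) * w u) ^ b) =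
        ENNReal.ofReal (z t) ^ (2 : ℝ) * ENNReal.ofReal (∫ u : ℝ, z (t + h * u) * w u) ^ b := by
      rw [ENNReal.ofReal_mul (by positivity), ENNReal.ofReal_rpow_of_nonneg (hz0 t) (by norm_num),
        ENNReal.ofReal_rpow_of_nonneg (hG0 t) hb.le]
      norm_num
    rw [h1]
    refine (young_enn hb).trans (add_le_add le_rfl ?_)
    have h2 : ENNReal.ofReal (∫ u : ℝ, z (t + h * u) * w u) ≤
        ∫⁻ u, ENNReal.ofReal (z (t + h * u)) * ENNReal.ofReal (w u) := by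
      refine (ofReal_int_le fun u => mul_nonneg (hz0 _) (hw0 _)).trans (le_of_eq ?_)
      exact lintegral_congr fun u => ENNReal.ofReal_mul (hz0 _)
    calc ENNReal.ofReal (∫ u : ℝ, z (t + h * u) * w u) ^ (b + 2) ≤
          (∫⁻ u, ENNReal.ofReal (z (t + h * u)) * ENNReal.ofReal (w u)) ^ (b + 2) := by gcongr
      _ ≤ _ := by
          rw [hI0]
          exact pow_mean_le (hcz t) hcw hk
  have hnn : ∀ t, 0 ≤ z t ^ 2 * (∫ u : ℝ, z (t + h * u) * w u) ^ b := fun t =>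
    mul_nonneg (by positivity) (Real.rpow_nonneg (hG0 t) _)
  have hmz : Measurable fun t => ENNReal.ofReal (z t) ^ (b + 2) :=
    (hz.measurable.ennreal_ofReal).pow_const _
  have hm2 : Measurable (Function.uncurry fun t u : ℝ =>
      ENNReal.ofReal (z (t + h * u)) ^ (b + 2) * ENNReal.ofReal (w u)) := by
    have h1 : Measurable fun q : ℝ × ℝ => ENNReal.ofReal (z (q.1 + h * q.2)) :=
      (hz.comp (by fun_prop : Continuous fun q : ℝ × ℝ => q.1 + h * q.2)).measurable.ennreal_ofReal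
    have h2 : Measurable fun q : ℝ × ℝ => ENNReal.ofReal (w q.2) :=
      (hw.comp continuous_snd).measurable.ennreal_ofReal
    exact (h1.pow_const _).mul h2
  have hmain : ∫⁻ t in Set.Ioc (0 : ℝ) T, ENNReal.ofReal (z t ^ 2 * (∫ u : ℝ, z (t + h * u) * w u) ^ b) ≤
      ENNReal.ofReal ((2 * C0 + 2 * C0 * J) * Q) := by
    calc _ ≤ ∫⁻ t in Set.Ioc (0 : ℝ) T, (ENNReal.ofReal (z t) ^ (b + 2) + I0 ^ (b + 2 - 1) *
          ∫⁻ u, ENNReal.ofReal (z (t + h * u)) ^ (b + 2) * ENNReal.ofReal (w u)) :=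
          lintegral_mono fun t => hpt t
      _ = (∫⁻ t in Set.Ioc (0 : ℝ) T, ENNReal.ofReal (z t) ^ (b + 2)) +
          ∫⁻ t in Set.Ioc (0 : ℝ) T, I0 ^ (b + 2 - 1) *
            ∫⁻ u, ENNReal.ofReal (z (t + h * u)) ^ (b + 2) * ENNReal.ofReal (w u) :=
          lintegral_add_left hmz _
      _ ≤ ENNReal.ofReal (2 * C0 * Q) + I0 ^ (b + 2 - 1) * (ENNReal.ofReal (2 * C0 * Q) * I1) := by
          refine add_le_add ?_ ?_
          · have h1 := shift_le hz hz0 hev hk0 hg hC0 hup (u := 0) hTT0 hT3 hh hh1 hN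
            simpa [hQ] using h1
          · rw [lintegral_const_mul]
            · gcongr
              rw [lintegral_lintegral_swap hm2.aemeasurable]
              have h2 : ∀ u, ∫⁻ t in Set.Ioc (0 : ℝ) T, ENNReal.ofReal (z (t + h * u)) ^ (b + 2) *
                  ENNReal.ofReal (w u) ≤ ENNReal.ofReal (2 * C0 * Q) * ENNReal.ofReal ((1 + |u|) ^ N * w u) := by
                intro u
                rw [lintegral_mul_const _ (by
                  exact ((hz.comp (by fun_prop : Continuous fun t : ℝ => t + h * u)).measurable.ennreal_ofReal).pow_const _)]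
                have h3 := shift_le hz hz0 hev hk0 hg hC0 hup (u := u) hTT0 hT3 hh hh1 hN
                calc _ ≤ ENNReal.ofReal (2 * C0 * (T * Real.log T ^ g * (1 + |u|) ^ N)) * ENNReal.ofReal (w u) := by
                      gcongr
                  _ = ENNReal.ofReal (2 * C0 * Q) * ENNReal.ofReal ((1 + |u|) ^ N * w u) := by
                      rw [← ENNReal.ofReal_mul (by positivity), ← ENNReal.ofReal_mul (by positivity), hQ]
                      congr 1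
                      ring
              calc _ ≤ ∫⁻ u, ENNReal.ofReal (2 * C0 * Q) * ENNReal.ofReal ((1 + |u|) ^ N * w u) :=
                    lintegral_mono fun u => h2 u
                _ = ENNReal.ofReal (2 * C0 * Q) * I1 := by
                    rw [lintegral_const_mul _ (by
                      exact (((by fun_prop : Continuous fun u : ℝ => (1 + |u|) ^ N).mul hw).measurable.ennreal_ofReal)), hI1]
            · exact hm2.lintegral_prod_right'
      _ = ENNReal.ofReal (2 * C0 * Q) + ENNReal.ofReal (2 * C0 * Q) * ENNReal.ofReal J := by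
          rw [← hJe]; ring
      _ = ENNReal.ofReal ((2 * C0 + 2 * C0 * J) * Q) := by
          rw [← ENNReal.ofReal_mul (by positivity), ← ENNReal.ofReal_add (by positivity) (by positivity)]
          congr 1
          ring
  have hfin := int_le_lint hnn (by positivity) hmain
  rw [intervalIntegral.integral_of_le hTp.le]
  calc (1 / T) * ∫ t in Set.Ioc (0 : ℝ) T, z t ^ 2 * (∫ u : ℝ, z (t + h * u) * w u) ^ b ≤
        (1 / T) * ((2 * C0 + 2 * C0 * J) * Q) := mul_le_mul_of_nonneg_left hfin (by positivity)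
    _ = _ := by rw [hQ]; field_simp

end Pool.Agent.LibST15
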