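import Mathlib
import Pool.Agent.LibTG78.A0
import Pool.Agent.LibTG78.B05
import Pool.Agent.LibTG78.B06
import Pool.Agent.LibFG78.B05
import Pool.Agent.LibFG78.B06
import Pool.Agent.LibPH45.PH_12

/-! # A pair of polynomials for the moments of zeta between the second and the fourth: definitions -/

set_option autoImplicit false

namespace Pool.Agent.LibST15

open MeasureTheory Filter Topology Pool.Agent.LibMM99 Pool.Agent.LibTG78
open scoped ComplexConjugate

/-- truncated exponential series -/
noncomputable def EM (N : ℕ) (z : ℂ) : ℂ := ∑ n ∈ Finset.range N, z ^ n / (n.factorial : ℂ)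

/-- the prime sum over the primes in `(u, v]` -/
noncomputable def QQ (u v : ℝ) (x : Om) : ℂ := DS (prm u v) (fun _ => 1) x

/-- nonnegative polynomial comparable with `exp (2 α Re q)` for small `q`, and at least one for large `q` -/
noncomputable def uq (α : ℝ) (N : ℕ) (q : ℂ) : ℝ := ‖EM N ((α : ℂ) * q)‖ ^ 2 + (10 * ‖q‖ / N) ^ (2 * N)

/-- the degrees -/
noncomputable def Nk (J i : ℕ) : ℕ := ⌈kap 40 J i⌉₊

/-- the polynomial at scale `i` -/
noncomputable def ub (α l0 : ℝ) (J i : ℕ) (x : Om) : ℝ := uq α (Nk J i) (QQ (tj l0 i) (tj l0 (i + 1)) x)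

/-- sum of the reciprocals of the primes in `(u, v]` -/
noncomputable def Sp (u v : ℝ) : ℝ := ∑ p ∈ prm u v, (p : ℝ)⁻¹

/-- the size of the errors -/
noncomputable def EE (s : ℂ) (u v : ℝ) : ℝ := ∑ p ∈ prm u v, (‖s‖ * Real.log p / p + (p : ℝ) ^ (-(3 / 2) : ℝ))

end Pool.Agent.LibST15
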