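import Mathlib
import Pool.Agent.LibST15.PDefs

/-! # Row PP01: truncated exponential series -/

set_option autoImplicit false

namespace Pool.Agent.LibST15

open MeasureTheory Filter Topology Pool.Agent.LibMM99 Pool.Agent.LibTG78
open scoped ComplexConjugate

private theorem PP01_tail {r : ℝ} (hr : 0 ≤ r) (N : ℕ) :
    Real.exp r - ∑ n ∈ Finset.range N, r ^ n / (n.factorial : ℝ) ≤
      r ^ N / (N.factorial : ℝ) * Real.exp r := by
  have hs := Real.summable_pow_div_factorial r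
  have h1 : Real.exp r = ∑' n : ℕ, r ^ n / (n.factorial : ℝ) := by
    rw [Real.exp_eq_exp_ℝ, NormedSpace.exp_eq_tsum_div]
  have h2 := hs.sum_add_tsum_nat_add N
  have h3 : ∑' n : ℕ, r ^ (n + N) / ((n + N).factorial : ℝ) ≤
      ∑' n : ℕ, r ^ N / (N.factorial : ℝ) * (r ^ n / (n.factorial : ℝ)) := by
    refine Summable.tsum_le_tsum (fun n => ?_) ((summable_nat_add_iff N).2 hs) (hs.mul_left _)
    have h4 : ((N.factorial : ℝ) * (n.factorial : ℝ)) ≤ ((n + N).factorial : ℝ) := by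
      have h5 := Nat.le_of_dvd (Nat.factorial_pos _) (Nat.factorial_mul_factorial_dvd_factorial_add N n)
      rw [add_comm N n] at h5
      exact_mod_cast h5
    rw [div_mul_div_comm, ← pow_add, add_comm N n]
    have h6 : (0 : ℝ) < (N.factorial : ℝ) * (n.factorial : ℝ) := by positivity
    exact div_le_div_of_nonneg_left (pow_nonneg hr _) h6 h4
  rw [tsum_mul_left, ← h1] at h3
  rw [← h1] at h2
  linarith

theorem EM_le (N : ℕ) (z : ℂ) : ‖EM N z‖ ≤ Real.exp ‖z‖ := by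
  unfold EM
  refine (norm_sum_le _ _).trans ?_
  refine le_trans (le_of_eq ?_) (Real.sum_le_exp_of_nonneg (norm_nonneg z) N)
  refine Finset.sum_congr rfl fun n _ => ?_
  rw [norm_div, norm_pow, Complex.norm_natCast]

private theorem PP01_close {N : ℕ} (hN : 1 ≤ N) {z : ℂ} (hz : ‖z‖ ≤ N / 10) :
    ‖Complex.exp z - EM N z‖ ≤ Real.exp (-N) * ‖Complex.exp z‖ := by
  have h1 := Complex.norm_exp_sub_sum_le_exp_norm_sub_sum z N
  have h2 := PP01_tail (norm_nonneg z) N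
  have hN0 : (0 : ℝ) < N := by exact_mod_cast hN
  have hf : (0 : ℝ) < (N.factorial : ℝ) := by positivity
  have h3 : (N : ℝ) ^ N ≤ Real.exp N * (N.factorial : ℝ) := by
    have := Real.pow_div_factorial_le_exp (N : ℝ) hN0.le N
    rwa [div_le_iff₀ hf] at this
  -- exponential identities
  have hexp10 : Real.exp (11 / 5) ≤ 10 := by
    have h4 : Real.exp (11 / 5) = Real.exp 1 ^ 2 * Real.exp (1 / 5) := by
      rw [← Real.exp_nat_mul, ← Real.exp_add]; norm_num
    have h5 : Real.exp 1 ≤ 2.7182818286 := Real.exp_one_lt_d9.le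
    have h6 : Real.exp (1 / 5) ≤ 1.25 := by
      have h7 := Real.exp_bound_div_one_sub_of_interval (x := 1 / 5) (by norm_num) (by norm_num)
      linarith [h7, show (1 : ℝ) / (1 - 1 / 5) = 1.25 by norm_num]
    rw [h4]
    calc Real.exp 1 ^ 2 * Real.exp (1 / 5) ≤ 2.7182818286 ^ 2 * 1.25 := by gcongr
      _ ≤ 10 := by norm_num
  have hzN : ‖z‖ ^ N / (N.factorial : ℝ) ≤ Real.exp N / 10 ^ N := by
    rw [div_le_div_iff₀ hf (by positivity)]
    calc ‖z‖ ^ N * 10 ^ N ≤ (N / 10 : ℝ) ^ N * 10 ^ N := by gcongr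
      _ = (N : ℝ) ^ N := by rw [← mul_pow]; congr 1; ring
      _ ≤ _ := h3
  have h7 : Real.exp ‖z‖ ≤ Real.exp (N / 10) := Real.exp_le_exp.2 hz
  have h8 : Real.exp (-(N / 10)) ≤ ‖Complex.exp z‖ := by
    rw [Complex.norm_exp]
    refine Real.exp_le_exp.2 ?_
    have := Complex.abs_re_le_norm z
    linarith [neg_abs_le z.re]
  have h9 : ‖z‖ ^ N / (N.factorial : ℝ) * Real.exp ‖z‖ ≤ Real.exp (-N) * Real.exp (-(N / 10)) := by
    calc ‖z‖ ^ N / (N.factorial : ℝ) * Real.exp ‖z‖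
        ≤ Real.exp N / 10 ^ N * Real.exp (N / 10) := by gcongr
      _ ≤ Real.exp N / Real.exp (11 / 5) ^ N * Real.exp (N / 10) := by gcongr
      _ = Real.exp (-N) * Real.exp (-(N / 10)) := by
        rw [← Real.exp_nat_mul, div_eq_mul_inv, ← Real.exp_neg, ← Real.exp_add, ← Real.exp_add,
          ← Real.exp_add]
        congr 1
        ring
  have h10 : ‖Complex.exp z - EM N z‖ ≤ ‖z‖ ^ N / (N.factorial : ℝ) * Real.exp ‖z‖ := by
    unfold EM
    exact h1.trans h2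
  calc ‖Complex.exp z - EM N z‖ ≤ Real.exp (-N) * Real.exp (-(N / 10)) := h10.trans h9
    _ ≤ Real.exp (-N) * ‖Complex.exp z‖ := by gcongr

theorem EM_near {N : ℕ} (hN : 1 ≤ N) {z : ℂ} (hz : ‖z‖ ≤ N / 10) :
    (1 - Real.exp (-N)) * ‖Complex.exp z‖ ≤ ‖EM N z‖ ∧ ‖EM N z‖ ≤ (1 + Real.exp (-N)) * ‖Complex.exp z‖ := by
  have h := PP01_close hN hz
  have h1 : ‖Complex.exp z‖ - ‖EM N z‖ ≤ ‖Complex.exp z - EM N z‖ := norm_sub_norm_le _ _
  have h2 : ‖EM N z‖ - ‖Complex.exp z‖ ≤ ‖EM N z - Complex.exp z‖ := norm_sub_norm_le _ _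
  rw [norm_sub_rev] at h2
  constructor <;> nlinarith [h, h1, h2]

end Pool.Agent.LibST15
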