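import Mathlib
import Pool.Agent.LibST15.PDefs
import Pool.Agent.LibST15.PP01

/-! # Row PP02: the pair inequality at one scale -/

set_option autoImplicit false

namespace Pool.Agent.LibST15

open MeasureTheory Filter Topology Pool.Agent.LibMM99 Pool.Agent.LibTG78
open scoped ComplexConjugate

private theorem PP02_near {α : ℝ} (hα : |α| ≤ 1) {N : ℕ} (hN : 1 ≤ N) {q : ℂ}
    (hq : ‖q‖ ≤ N / 10) :
    (1 - Real.exp (-N)) ^ 2 * Real.exp (2 * (α * q.re)) ≤ uq α N q := by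
  have h1 : ‖(α : ℂ) * q‖ ≤ N / 10 := by
    rw [norm_mul, Complex.norm_real, Real.norm_eq_abs]
    calc |α| * ‖q‖ ≤ 1 * ‖q‖ := by gcongr
      _ = ‖q‖ := one_mul _
      _ ≤ N / 10 := hq
  have h2 := (EM_near hN h1).1
  have h3 : ‖Complex.exp ((α : ℂ) * q)‖ = Real.exp (α * q.re) := by
    rw [Complex.norm_exp, Complex.re_ofReal_mul]
  rw [h3] at h2
  have h4 : 0 ≤ 1 - Real.exp (-(N : ℝ)) := by
    have : Real.exp (-(N : ℝ)) ≤ 1 := Real.exp_le_one_iff.2 (by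
      have : (0 : ℝ) ≤ N := Nat.cast_nonneg N
      linarith)
    linarith
  have h5 : 0 ≤ (1 - Real.exp (-(N : ℝ))) * Real.exp (α * q.re) :=
    mul_nonneg h4 (Real.exp_pos _).le
  have h6 := pow_le_pow_left₀ h5 h2 2
  have h7 : ((1 - Real.exp (-(N : ℝ))) * Real.exp (α * q.re)) ^ 2 =
      (1 - Real.exp (-(N : ℝ))) ^ 2 * Real.exp (2 * (α * q.re)) := by
    rw [mul_pow, ← Real.exp_nat_mul]
    norm_num
  rw [h7] at h6
  unfold uq
  have h8 : 0 ≤ (10 * ‖q‖ / N) ^ (2 * N) := by positivity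
  linarith

private theorem PP02_far {α : ℝ} {N : ℕ} (hN : 1 ≤ N) {q : ℂ} (hq : N / 10 < ‖q‖) :
    1 ≤ uq α N q := by
  have hN0 : (0 : ℝ) < N := by exact_mod_cast hN
  have h1 : (1 : ℝ) ≤ 10 * ‖q‖ / N := by
    rw [le_div_iff₀ hN0]
    linarith
  have h2 : (1 : ℝ) ≤ (10 * ‖q‖ / N) ^ (2 * N) := one_le_pow₀ h1
  unfold uq
  have h3 : 0 ≤ ‖EM N ((α : ℂ) * q)‖ ^ 2 := by positivity
  linarith

theorem uq_pair {b : ℝ} (hb : 0 ≤ b) (hb2 : b ≤ 2) {N : ℕ} (hN : 1 ≤ N) (q : ℂ) :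
    (1 - Real.exp (-N)) ^ 2 ≤ uq (b / 2) N q ^ (1 - b / 2) * uq (b / 2 - 1) N q ^ (b / 2) := by
  have hw1 : 0 ≤ 1 - b / 2 := by linarith
  have hw2 : 0 ≤ b / 2 := by linarith
  have hN0 : (0 : ℝ) < N := by exact_mod_cast hN
  have he : Real.exp (-(N : ℝ)) < 1 := Real.exp_lt_one_iff.2 (by linarith)
  have hc0 : 0 < 1 - Real.exp (-(N : ℝ)) := by linarith
  rcases le_or_gt ‖q‖ (N / 10) with hq | hq
  · have h1 : |b / 2| ≤ 1 := by
      rw [abs_le]
      constructor <;> linarith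
    have h2 : |b / 2 - 1| ≤ 1 := by
      rw [abs_le]
      constructor <;> linarith
    have h3 := PP02_near h1 hN hq
    have h4 := PP02_near h2 hN hq
    have hp1 : 0 < (1 - Real.exp (-(N : ℝ))) ^ 2 * Real.exp (2 * (b / 2 * q.re)) := by positivity
    have hp2 : 0 < (1 - Real.exp (-(N : ℝ))) ^ 2 * Real.exp (2 * ((b / 2 - 1) * q.re)) := by
      positivity
    have h5 := Real.rpow_le_rpow hp1.le h3 hw1
    have h6 := Real.rpow_le_rpow hp2.le h4 hw2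
    have h7 := mul_le_mul h5 h6 (Real.rpow_nonneg hp2.le _)
      (Real.rpow_nonneg (hp1.le.trans h3) _)
    refine le_trans (le_of_eq ?_) h7
    have hc2 : 0 < (1 - Real.exp (-(N : ℝ))) ^ 2 := by positivity
    rw [Real.mul_rpow hc2.le (Real.exp_pos _).le, Real.mul_rpow hc2.le (Real.exp_pos _).le,
      ← Real.exp_mul, ← Real.exp_mul]
    have h8 : ((1 - Real.exp (-(N : ℝ))) ^ 2) ^ (1 - b / 2) *
        Real.exp (2 * (b / 2 * q.re) * (1 - b / 2)) *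
        (((1 - Real.exp (-(N : ℝ))) ^ 2) ^ (b / 2) *
        Real.exp (2 * ((b / 2 - 1) * q.re) * (b / 2))) =
        (((1 - Real.exp (-(N : ℝ))) ^ 2) ^ (1 - b / 2) *
          ((1 - Real.exp (-(N : ℝ))) ^ 2) ^ (b / 2)) *
        (Real.exp (2 * (b / 2 * q.re) * (1 - b / 2)) *
          Real.exp (2 * ((b / 2 - 1) * q.re) * (b / 2))) := by ring
    rw [h8, ← Real.rpow_add hc2, ← Real.exp_add]
    have h9 : 2 * (b / 2 * q.re) * (1 - b / 2) + 2 * ((b / 2 - 1) * q.re) * (b / 2) = 0 := by ring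
    have h10 : 1 - b / 2 + b / 2 = 1 := by ring
    rw [h9, h10, Real.rpow_one, Real.exp_zero, mul_one]
  · have h1 := PP02_far (α := b / 2) hN hq
    have h2 := PP02_far (α := b / 2 - 1) hN hq
    have h3 := Real.one_le_rpow h1 hw1
    have h4 := Real.one_le_rpow h2 hw2
    have h5 : (1 - Real.exp (-(N : ℝ))) ^ 2 ≤ 1 := by
      have := (Real.exp_pos (-(N : ℝ)))
      exact pow_le_one₀ hc0.le (by linarith)
    calc (1 - Real.exp (-(N : ℝ))) ^ 2 ≤ 1 := h5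
      _ = 1 * 1 := (one_mul 1).symm
      _ ≤ _ := mul_le_mul h3 h4 zero_le_one (zero_le_one.trans h3)

end Pool.Agent.LibST15
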