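import Mathlib
import Pool.Agent.LibST15.PDefs
import Pool.Agent.LibST15.PP01

/-! # Row PP03: upper bound at one scale -/

set_option autoImplicit false

namespace Pool.Agent.LibST15

open MeasureTheory Filter Topology Pool.Agent.LibMM99 Pool.Agent.LibTG78
open scoped ComplexConjugate

theorem uq_nonneg (α : ℝ) (N : ℕ) (q : ℂ) : 0 ≤ uq α N q := by
  unfold uq
  have h1 : 0 ≤ 10 * ‖q‖ / (N : ℝ) := div_nonneg (by positivity) (Nat.cast_nonneg _)
  exact add_nonneg (sq_nonneg _) (pow_nonneg h1 _)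

theorem uq_le {α : ℝ} (hα : |α| ≤ 1) {N : ℕ} (hN : 1 ≤ N) (q : ℂ) :
    uq α N q ≤ (1 + 3 * Real.exp (-N)) * Real.exp (2 * α * q.re) + 2 * Real.exp (-N) * Real.exp (22 * ‖q‖) := by
  have hN0 : (0 : ℝ) < N := by exact_mod_cast hN
  have hq0 : 0 ≤ ‖q‖ := norm_nonneg q
  have hz : ‖(α : ℂ) * q‖ ≤ ‖q‖ := by
    rw [norm_mul, Complex.norm_real, Real.norm_eq_abs]
    exact mul_le_of_le_one_left hq0 hα
  have hε0 : 0 < Real.exp (-(N : ℝ)) := Real.exp_pos _
  have hε1 : Real.exp (-(N : ℝ)) ≤ 1 := Real.exp_le_one_iff.mpr (by linarith only [hN0])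
  -- the power term
  have hpow : (10 * ‖q‖ / (N : ℝ)) ^ (2 * N) ≤ Real.exp (-N) * Real.exp (22 * ‖q‖) := by
    have h1 : 0 ≤ 10 * ‖q‖ / (N : ℝ) := div_nonneg (by positivity) hN0.le
    have h2 : 10 * ‖q‖ / (N : ℝ) ≤ Real.exp (10 * ‖q‖ / (N : ℝ) - 1) := by
      have := Real.add_one_le_exp (10 * ‖q‖ / (N : ℝ) - 1)
      linarith only [this]
    calc (10 * ‖q‖ / (N : ℝ)) ^ (2 * N) ≤ Real.exp (10 * ‖q‖ / (N : ℝ) - 1) ^ (2 * N) :=
          pow_le_pow_left₀ h1 h2 _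
      _ = Real.exp (((2 * N : ℕ) : ℝ) * (10 * ‖q‖ / (N : ℝ) - 1)) := (Real.exp_nat_mul _ _).symm
      _ ≤ Real.exp (-(N : ℝ) + 22 * ‖q‖) := by
          refine Real.exp_le_exp.mpr ?_
          have h3 : ((2 * N : ℕ) : ℝ) * (10 * ‖q‖ / (N : ℝ) - 1) = 20 * ‖q‖ - 2 * N := by
            push_cast
            field_simp
            ring
          rw [h3]
          linarith only [hq0, hN0]
      _ = Real.exp (-N) * Real.exp (22 * ‖q‖) := Real.exp_add _ _
  have hre : ‖Complex.exp ((α : ℂ) * q)‖ = Real.exp (α * q.re) := by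
    rw [Complex.norm_exp, Complex.re_ofReal_mul]
  unfold uq
  by_cases hcase : ‖q‖ ≤ N / 10
  · have h1 := (EM_near hN (hz.trans hcase)).2
    rw [hre] at h1
    have h2 : ‖EM N ((α : ℂ) * q)‖ ^ 2 ≤
        (1 + 3 * Real.exp (-N)) * Real.exp (2 * α * q.re) := by
      have h3 : Real.exp (2 * α * q.re) = Real.exp (α * q.re) ^ 2 := by
        rw [← Real.exp_nat_mul]
        congr 1
        push_cast
        ring
      have h4 : ‖EM N ((α : ℂ) * q)‖ ^ 2 ≤ ((1 + Real.exp (-N)) * Real.exp (α * q.re)) ^ 2 :=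
        pow_le_pow_left₀ (norm_nonneg _) h1 2
      refine h4.trans ?_
      rw [mul_pow, h3]
      refine mul_le_mul_of_nonneg_right ?_ (sq_nonneg _)
      nlinarith only [hε0, hε1]
    have h5 : 0 ≤ Real.exp (-(N : ℝ)) * Real.exp (22 * ‖q‖) := by positivity
    linarith only [h2, hpow, h5]
  · have hcase' : (N : ℝ) / 10 < ‖q‖ := not_le.mp hcase
    have h1 : ‖EM N ((α : ℂ) * q)‖ ^ 2 ≤ Real.exp (-N) * Real.exp (22 * ‖q‖) := by
      have h2 : ‖EM N ((α : ℂ) * q)‖ ≤ Real.exp ‖q‖ :=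
        (EM_le N _).trans (Real.exp_le_exp.mpr hz)
      calc ‖EM N ((α : ℂ) * q)‖ ^ 2 ≤ Real.exp ‖q‖ ^ 2 := pow_le_pow_left₀ (norm_nonneg _) h2 2
        _ = Real.exp (2 * ‖q‖) := by
            rw [← Real.exp_nat_mul]
            norm_num
        _ ≤ Real.exp (-(N : ℝ) + 22 * ‖q‖) := by
            refine Real.exp_le_exp.mpr ?_
            linarith only [hcase', hq0]
        _ = _ := Real.exp_add _ _
    have h3 : 0 ≤ (1 + 3 * Real.exp (-(N : ℝ))) * Real.exp (2 * α * q.re) := by positivity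
    linarith only [h1, hpow, h3]

end Pool.Agent.LibST15
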