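import Mathlib
import Pool.Agent.LibST15.PDefs
import Pool.Agent.LibST15.PP02
import Pool.Agent.LibST15.PP03

/-! # Row PP04: the pair inequality for the products -/

set_option autoImplicit false

namespace Pool.Agent.LibST15

open MeasureTheory Filter Topology Pool.Agent.LibMM99 Pool.Agent.LibTG78
open scoped ComplexConjugate

theorem PP04_Nk_ge (J i : ℕ) : kap 40 J i ≤ (Nk J i : ℝ) := Nat.le_ceil _

theorem PP04_Nk_one (J i : ℕ) : 1 ≤ Nk J i := by
  have h := A0_kap_ge (K := 40) (by norm_num) J i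
  have h2 := PP04_Nk_ge J i
  have h3 : (1 : ℝ) ≤ (Nk J i : ℝ) := by linarith
  exact_mod_cast h3

theorem PP04_one_sub {y : ℝ} (h0 : 0 ≤ y) (h1 : y ≤ 1 / 2) : Real.exp (-(2 * y)) ≤ 1 - y := by
  rw [Real.exp_neg]
  have h2 : 1 + 2 * y ≤ Real.exp (2 * y) := by
    have := Real.add_one_le_exp (2 * y)
    linarith
  have h3 : (Real.exp (2 * y))⁻¹ ≤ (1 + 2 * y)⁻¹ := inv_anti₀ (by linarith) h2
  refine h3.trans ?_
  rw [inv_le_iff_one_le_mul₀ (by linarith)]
  nlinarith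

theorem PP04_step (J i : ℕ) :
    Real.exp (-(4 * Real.exp (-kap 40 J i / 20))) ≤ (1 - Real.exp (-(Nk J i : ℝ))) ^ 2 := by
  have hk := A0_kap_ge (K := 40) (by norm_num) J i
  have hN := PP04_Nk_ge J i
  have he : Real.exp (-1) ≤ 1 / 2 := by
    have h3 := Real.exp_one_gt_d9
    rw [Real.exp_neg, inv_le_comm₀ (Real.exp_pos _) (by norm_num)]
    norm_num
    linarith
  have h1 : Real.exp (-(Nk J i : ℝ)) ≤ Real.exp (-kap 40 J i / 20) :=
    Real.exp_le_exp.2 (by linarith)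
  have h2 : Real.exp (-kap 40 J i / 20) ≤ 1 / 2 :=
    (Real.exp_le_exp.2 (by linarith : -kap 40 J i / 20 ≤ -1)).trans he
  have h3 := PP04_one_sub (Real.exp_pos (-kap 40 J i / 20)).le h2
  have h4 : Real.exp (-(4 * Real.exp (-kap 40 J i / 20))) =
      Real.exp (-(2 * Real.exp (-kap 40 J i / 20))) ^ 2 := by
    rw [← Real.exp_nat_mul]
    congr 1
    push_cast
    ring
  rw [h4]
  exact pow_le_pow_left₀ (Real.exp_pos _).le (by linarith) 2

theorem pair_prod {b : ℝ} (hb : 0 ≤ b) (hb2 : b ≤ 2) (l0 : ℝ) (J : ℕ) (x : Om) :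
    Real.exp (-2) ≤ BB (ub (b / 2) l0 J) J x ^ (1 - b / 2) * BB (ub (b / 2 - 1) l0 J) J x ^ (b / 2) := by
  have hf : ∀ (α : ℝ) (i : ℕ), 0 ≤ ub α l0 J i x := fun α i => by
    unfold ub
    exact uq_nonneg _ _ _
  unfold BB
  rw [← Real.finsetProd_rpow (Finset.range J) (fun i => ub (b / 2) l0 J i x) (fun i _ => hf _ i),
    ← Real.finsetProd_rpow (Finset.range J) (fun i => ub (b / 2 - 1) l0 J i x) (fun i _ => hf _ i),
    ← Finset.prod_mul_distrib]
  have h1 : ∏ i ∈ Finset.range J, Real.exp (-(4 * Real.exp (-kap 40 J i / 20))) ≤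
      ∏ i ∈ Finset.range J, (ub (b / 2) l0 J i x ^ (1 - b / 2) * ub (b / 2 - 1) l0 J i x ^ (b / 2)) := by
    refine Finset.prod_le_prod (fun i _ => (Real.exp_pos _).le) fun i _ => ?_
    exact (PP04_step J i).trans (uq_pair hb hb2 (PP04_Nk_one J i) _)
  refine le_trans ?_ h1
  rw [← Real.exp_sum]
  refine Real.exp_le_exp.2 ?_
  rw [Finset.sum_neg_distrib, ← Finset.mul_sum]
  have h2 := A0_sum (K := 40) le_rfl J (j := J) le_rfl
  have h3 : Real.exp (-40 / 20) ≤ 1 / 4 := by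
    have h4 := Real.exp_one_gt_d9
    have h5 : Real.exp (-40 / 20) = (Real.exp 1 ^ 2)⁻¹ := by
      rw [← Real.exp_nat_mul, ← Real.exp_neg]
      congr 1
      norm_num
    rw [h5, inv_le_comm₀ (by positivity) (by norm_num)]
    nlinarith
  linarith

end Pool.Agent.LibST15
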