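import Mathlib
import Pool.Agent.LibST15.PDefs

/-! # Row PP14: continuity and dependence -/

set_option autoImplicit false

namespace Pool.Agent.LibST15

open MeasureTheory Filter Topology Pool.Agent.LibMM99 Pool.Agent.LibTG78
open scoped ComplexConjugate

theorem QQ_cont (u v : ℝ) : Continuous (QQ u v) := continuous_DS _ _

theorem QQ_dep (u v : ℝ) : DependsOn (QQ u v) (coo u v) := by
  intro x y hxy
  unfold QQ DS
  refine Finset.sum_congr rfl fun p hp => ?_
  rw [mem_prm] at hp
  have h1 : ch x p = ch y p := by
    apply dependsOn_ch p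
    intro q hq
    rw [hp.1.primeFactors, Finset.coe_singleton, Set.mem_singleton_iff] at hq
    rw [hq]
    exact hxy p hp.2
  rw [h1]

theorem ub_cont (α l0 : ℝ) (J i : ℕ) : Continuous (ub α l0 J i) := by
  have hq := QQ_cont (tj l0 i) (tj l0 (i + 1))
  unfold ub uq EM
  refine Continuous.add (Continuous.pow (Continuous.norm ?_) 2) ?_
  · exact continuous_finsetSum _ fun n _ => ((continuous_const.mul hq).pow n).div_const _
  · exact ((continuous_const.mul hq.norm).div_const _).pow _

theorem ub_dep (α l0 : ℝ) (J i : ℕ) : DependsOn (ub α l0 J i) (coo (tj l0 i) (tj l0 (i + 1))) := by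
  intro x y hxy
  unfold ub
  rw [QQ_dep (tj l0 i) (tj l0 (i + 1)) hxy]

end Pool.Agent.LibST15
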