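import Mathlib
import Pool.Agent.LibST15.PDefs

/-! # Row PP11: prime sums -/

set_option autoImplicit false

namespace Pool.Agent.LibST15

open MeasureTheory Filter Topology Pool.Agent.LibMM99 Pool.Agent.LibTG78
open scoped ComplexConjugate

theorem EE_nonneg (s : ℂ) (u v : ℝ) : 0 ≤ EE s u v := by
  unfold EE
  refine Finset.sum_nonneg fun p _ => ?_
  have h1 : 0 ≤ Real.log (p : ℝ) := Real.log_natCast_nonneg p
  positivity

theorem PP11_three : ∃ C : ℝ, 0 ≤ C ∧ ∀ t : Finset ℕ, ∑ p ∈ t, (p : ℝ) ^ (-(3 / 2) : ℝ) ≤ C := by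
  have hs : Summable (fun n : ℕ => (n : ℝ) ^ (-(3 / 2) : ℝ)) :=
    Real.summable_nat_rpow.2 (by norm_num)
  refine ⟨∑' n : ℕ, (n : ℝ) ^ (-(3 / 2) : ℝ), tsum_nonneg fun n => by positivity, fun t => ?_⟩
  exact hs.sum_le_tsum t fun n _ => by positivity

theorem PP11_sub {u v w : ℝ} (hu : 1 ≤ u) (hv : v ≤ w) : prm u v ⊆ prm 1 w := by
  intro p hp
  simp only [prm, Finset.mem_filter, Finset.mem_Icc] at hp ⊢
  refine ⟨⟨hp.1.1, hp.1.2.trans (Nat.floor_mono hv)⟩, hp.2.1, ?_⟩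
  exact lt_of_le_of_lt hu hp.2.2

theorem EE_le : ∃ C : ℝ, 0 ≤ C ∧ ∀ (s : ℂ) (L u v : ℝ), Adm s L → 1 ≤ u → v ≤ Real.exp L → EE s u v ≤ C := by
  obtain ⟨C1, hC1, h1⟩ := sum_log_prime_le
  obtain ⟨C2, hC2, h2⟩ := PP11_three
  refine ⟨1 + C1 + C2, by linarith, fun s L u v hA hu hv => ?_⟩
  obtain ⟨hL, hs⟩ := hA
  have hL0 : 0 < L := by linarith
  have h3 : ∑ p ∈ prm u v, Real.log p / p ≤ L + C1 := by
    have h4 : ∑ p ∈ prm u v, Real.log p / p ≤ ∑ p ∈ prm 1 (Real.exp L), Real.log p / p := by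
      refine Finset.sum_le_sum_of_subset_of_nonneg (PP11_sub hu hv) fun p _ _ => ?_
      exact div_nonneg (Real.log_natCast_nonneg p) (Nat.cast_nonneg p)
    have h5 := h1 (Real.exp L) (Real.one_le_exp hL0.le)
    rw [Real.log_exp] at h5
    linarith
  have h6 : EE s u v = ‖s‖ * ∑ p ∈ prm u v, Real.log p / p + ∑ p ∈ prm u v, (p : ℝ) ^ (-(3 / 2) : ℝ) := by
    unfold EE
    rw [Finset.sum_add_distrib, Finset.mul_sum]
    congr 1
    refine Finset.sum_congr rfl fun p _ => ?_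
    ring
  have h7 : ‖s‖ * ∑ p ∈ prm u v, Real.log p / p ≤ 1 + C1 := by
    have h8 : ‖s‖ * ∑ p ∈ prm u v, Real.log p / p ≤ ‖s‖ * (L + C1) :=
      mul_le_mul_of_nonneg_left h3 (norm_nonneg _)
    have h9 : ‖s‖ * (L + C1) ≤ 1 / (20 * L) * (L + C1) :=
      mul_le_mul_of_nonneg_right hs (by linarith)
    have h10 : 1 / (20 * L) * (L + C1) ≤ 1 + C1 := by
      rw [div_mul_eq_mul_div, div_le_iff₀ (by linarith)]
      nlinarith
    linarith
  rw [h6]
  have := h2 (prm u v)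
  linarith

theorem Sp_near : ∃ C : ℝ, 0 ≤ C ∧ ∀ (u v : ℝ), Real.sqrt 2 ≤ u → u ≤ v →
    |Sp u v - Real.log (Real.log v / Real.log u)| ≤ C := by
  obtain ⟨K, hK0, hK⟩ := LibMaier.mertens_first
  have h2 : (1:ℝ) < Real.sqrt 2 := by
    rw [Real.lt_sqrt (by norm_num)]; norm_num
  have hl2 : 0 < Real.log (Real.sqrt 2) := Real.log_pos h2
  refine ⟨2 * K / Real.log (Real.sqrt 2), by positivity, fun u v hu huv => ?_⟩
  have hu1 : 1 < u := by linarith
  have hv1 : 1 < v := by linarith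
  have hlu : 0 < Real.log u := Real.log_pos hu1
  have hlv : 0 < Real.log v := Real.log_pos hv1
  have h3 := LibMaier.DR_sub hK hu1 huv
  have h4 : 2 * K / Real.log u ≤ 2 * K / Real.log (Real.sqrt 2) := by
    have := Real.log_le_log (by linarith) hu
    gcongr
  unfold Sp
  rw [t09_sum_eq huv, Real.log_div hlv.ne' hlu.ne']
  have h5 := abs_le.1 h3
  unfold LibMaier.DR at h5
  rw [abs_le]
  constructor
  · linarith [h5.1]
  · linarith [h5.2]

theorem Sp_nonneg (u v : ℝ) : 0 ≤ Sp u v := by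
  unfold Sp
  exact Finset.sum_nonneg fun p _ => by positivity

end Pool.Agent.LibST15
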