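import Mathlib
import Pool.Agent.LibST15.PDefs

/-! # Row PP08: the first coefficient -/

set_option autoImplicit false

namespace Pool.Agent.LibST15

open MeasureTheory Filter Topology Pool.Agent.LibMM99 Pool.Agent.LibTG78
open scoped ComplexConjugate

theorem c1_real (m : ℕ) (B : ℝ) (hB : 0 ≤ B) : ∃ C : ℝ, 0 ≤ C ∧ ∀ (s : ℂ) (L : ℝ), Adm s L → ∀ p : ℕ, p.Prime →
    (p : ℝ) ≤ Real.exp L → ∀ β : ℝ, |β| ≤ B →
    ‖(m : ℂ) * zp s p + (β : ℂ) / (2 * (Real.sqrt p : ℂ))‖ ^ 2 ≤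
      (m + β / 2) ^ 2 * (p : ℝ)⁻¹ + C * (‖s‖ * Real.log p / p) := by
  have hm0 : (0 : ℝ) ≤ m := Nat.cast_nonneg m
  refine ⟨4 * (m + B / 2) * m + m ^ 2, by positivity, ?_⟩
  intro s L h p hp hpL β hβ
  have hsh := LibPH45.P12_shift h hp hpL
  obtain ⟨hr0, hr1, hrr⟩ := LibPH45.P12_r hp
  have hl := B01_log hp.two_le hpL
  have ht := (h.re_log hl.1 hl.2).2
  have hz := LibPH45.P01_zp_zero (p := p)
  set r : ℝ := (Real.sqrt p)⁻¹ with hr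
  set t : ℝ := ‖s‖ * Real.log p with htdef
  have ht0 : 0 ≤ t := mul_nonneg (norm_nonneg _) hl.1
  have e1 : (m : ℂ) * zp s p + (β : ℂ) / (2 * (Real.sqrt p : ℂ)) =
      (((m + β / 2) * r : ℝ) : ℂ) + (m : ℂ) * (zp s p - zp 0 p) := by
    rw [hz, hr]
    push_cast
    ring
  have hd : ‖zp s p - zp 0 p‖ ≤ 2 * t * r := by
    rw [htdef]
    calc _ ≤ _ := hsh
      _ = _ := by ring
  have e2 : ‖(m : ℂ) * zp s p + (β : ℂ) / (2 * (Real.sqrt p : ℂ))‖ ≤ |m + β / 2| * r + m * (2 * t * r) := by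
    rw [e1]
    refine (norm_add_le _ _).trans ?_
    rw [Complex.norm_real, norm_mul (m : ℂ), Complex.norm_natCast, Real.norm_eq_abs, abs_mul, abs_of_pos hr0]
    gcongr
  have e3 : |(m : ℝ) + β / 2| ≤ m + B / 2 := by
    rw [abs_le] at hβ ⊢
    constructor <;> linarith [hβ.1, hβ.2]
  have e4 : ‖(m : ℂ) * zp s p + (β : ℂ) / (2 * (Real.sqrt p : ℂ))‖ ^ 2 ≤
      (|m + β / 2| * r + m * (2 * t * r)) ^ 2 := pow_le_pow_left₀ (norm_nonneg _) e2 2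
  refine e4.trans ?_
  have e5 : ‖s‖ * Real.log p / p = t * (r * r) := by
    rw [hrr, ← htdef, div_eq_mul_inv]
  rw [e5, ← hrr, ← sq_abs ((m : ℝ) + β / 2)]
  set A : ℝ := |(m : ℝ) + β / 2| with hA
  have hA0 : 0 ≤ A := abs_nonneg _
  have k1 : A * m * (t * (r * r)) ≤ (m + B / 2) * m * (t * (r * r)) := by gcongr
  have k2 : (m : ℝ) ^ 2 * (t * t) * (r * r) ≤ (m : ℝ) ^ 2 * (1 / 20 * t) * (r * r) := by gcongr
  have k3 : 0 ≤ (m : ℝ) ^ 2 * t * (r * r) := by positivity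
  nlinarith [k1, k2, k3]

theorem c1_complex (m : ℕ) (B : ℝ) (hB : 0 ≤ B) : ∃ C : ℝ, 0 ≤ C ∧ ∀ (s : ℂ) (L : ℝ), Adm s L → ∀ p : ℕ, p.Prime →
    (p : ℝ) ≤ Real.exp L → ∀ β : ℂ, ‖β‖ ≤ B →
    ‖(m : ℂ) * zp s p + β / (2 * (Real.sqrt p : ℂ))‖ ^ 2 ≤ C * (p : ℝ)⁻¹ := by
  have hm0 : (0 : ℝ) ≤ m := Nat.cast_nonneg m
  refine ⟨(11 / 10 * m + B / 2) ^ 2, by positivity, ?_⟩
  intro s L h p hp hpL β hβ
  obtain ⟨hr0, hr1, hrr⟩ := LibPH45.P12_r hp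
  have hb := (LibPH45.P12_bd h hp hpL).1
  set r : ℝ := (Real.sqrt p)⁻¹ with hr
  have e1 : β / (2 * (Real.sqrt p : ℂ)) = β * ((r / 2 : ℝ) : ℂ) := by
    rw [hr]
    push_cast
    ring
  have e2 : ‖(m : ℂ) * zp s p + β / (2 * (Real.sqrt p : ℂ))‖ ≤ (11 / 10 * m + B / 2) * r := by
    rw [e1]
    refine (norm_add_le _ _).trans ?_
    rw [norm_mul, norm_mul, Complex.norm_natCast, Complex.norm_real, Real.norm_eq_abs,
      abs_of_pos (by positivity : 0 < r / 2)]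
    have k1 : (m : ℝ) * ‖zp s p‖ ≤ m * (11 / 10 * r) := by gcongr
    have k2 : ‖β‖ * (r / 2) ≤ B * (r / 2) := by gcongr
    linarith
  calc _ ≤ ((11 / 10 * m + B / 2) * r) ^ 2 := pow_le_pow_left₀ (norm_nonneg _) e2 2
    _ = (11 / 10 * m + B / 2) ^ 2 * (r * r) := by ring
    _ = _ := by rw [hrr]

end Pool.Agent.LibST15
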