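import Mathlib
import Pool.Agent.LibST15.PDefs

/-! # Row PP09: normalising factors -/

set_option autoImplicit false

namespace Pool.Agent.LibST15

open MeasureTheory Filter Topology Pool.Agent.LibMM99 Pool.Agent.LibTG78
open scoped ComplexConjugate

theorem PP09_one {x : ℝ} (h0 : 0 ≤ x) (h1 : x < 1) : (LibZM.Gsum 2 x)⁻¹ ≤ Real.exp (-(4 * x) + x ^ 2) := by
  rw [LibFG78.Gsum_two h0 h1, inv_div]
  have h2 : 0 < 1 + x := by linarith
  rw [div_le_iff₀ h2]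
  have h3 : (1 - x) ^ 3 ≤ Real.exp (-x) ^ 3 := by
    refine pow_le_pow_left₀ (by linarith) ?_ 3
    have := Real.add_one_le_exp (-x)
    linarith
  have h4 : Real.exp (x - x ^ 2) ≤ 1 + x := by
    have h5 : Real.exp (-(x - x ^ 2)) ≥ 1 - x + x ^ 2 := by
      have := Real.add_one_le_exp (-(x - x ^ 2))
      linarith
    rw [Real.exp_neg] at h5
    have h6 : 0 < Real.exp (x - x ^ 2) := Real.exp_pos _
    have h7 : (1 - x + x ^ 2) * Real.exp (x - x ^ 2) ≤ 1 := by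
      have := mul_le_mul_of_nonneg_right h5 h6.le
      rwa [inv_mul_cancel₀ h6.ne'] at this
    have h8 : (1 - x + x ^ 2) * (1 + x) = 1 + x ^ 3 := by ring
    have h9 : 0 < 1 - x + x ^ 2 := by nlinarith
    by_contra hc
    rw [not_le] at hc
    have h10 := mul_lt_mul_of_pos_left hc h9
    have h11 : 0 ≤ x ^ 3 := by positivity
    linarith
  have h12 : Real.exp (-x) ^ 3 = Real.exp (-(4 * x) + x ^ 2) * Real.exp (x - x ^ 2) := by
    rw [← Real.exp_nat_mul, ← Real.exp_add]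
    congr 1
    push_cast
    ring
  rw [h12] at h3
  exact h3.trans (mul_le_mul_of_nonneg_left h4 (Real.exp_pos _).le)

theorem PP09_pow {p : ℕ} (hp : 2 ≤ p) : ((p : ℝ)⁻¹) ^ 2 ≤ (p : ℝ) ^ (-(3 / 2) : ℝ) := by
  have hp0 : (0 : ℝ) < p := by exact_mod_cast (by omega : 0 < p)
  have hp1 : (1 : ℝ) ≤ p := by exact_mod_cast (by omega : 1 ≤ p)
  have e : ((p : ℝ)⁻¹) ^ 2 = (p : ℝ) ^ (-2 : ℝ) := by
    rw [Real.rpow_neg hp0.le, inv_pow]
    norm_num
  rw [e]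
  exact Real.rpow_le_rpow_of_exponent_le hp1 (by norm_num)

theorem nz_factor : ∃ C : ℝ, 0 ≤ C ∧ ∀ (s : ℂ) (L u v : ℝ), Adm s L → v ≤ Real.exp L →
    nz s u v ≤ Real.exp (-Sp u v + C * EE s u v) ∧ LibFG78.nz4 s u v ≤ Real.exp (-(4 * Sp u v) + C * EE s u v) := by
  refine ⟨12, by norm_num, fun s L u v hs hv => ?_⟩
  have hbasic : ∀ p ∈ prm u v, 0 ≤ ‖zp s p‖ ^ 2 ∧ ‖zp s p‖ ^ 2 < 1 ∧
      (p : ℝ)⁻¹ - 3 * (‖s‖ * Real.log p / p) ≤ ‖zp s p‖ ^ 2 ∧ (‖zp s p‖ ^ 2) ^ 2 ≤ 2 * (p : ℝ) ^ (-(3 / 2) : ℝ) ∧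
      0 ≤ ‖s‖ * Real.log p / p ∧ 0 ≤ (p : ℝ) ^ (-(3 / 2) : ℝ) := by
    intro p hp
    have hp' := mem_prm.1 hp
    have hp2 := hp'.1.two_le
    have hp0 : (0 : ℝ) < p := by exact_mod_cast (by omega : 0 < p)
    have h1 := norm_zp_sq_near hs hp2 (hp'.2.2.trans hv)
    have hlog0 : 0 ≤ Real.log p := Real.log_natCast_nonneg p
    have hlogL : Real.log p ≤ L := by
      rw [← Real.log_exp L]
      exact Real.log_le_log hp0 (hp'.2.2.trans hv)
    have h2 := (hs.re_log hlog0 hlogL).2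
    refine ⟨by positivity, LibFG78.sq_lt_one hs hv hp, ?_, ?_, by positivity, by positivity⟩
    · refine le_trans (le_of_eq ?_) h1.1
      field_simp
    · have h3 : ‖zp s p‖ ^ 2 ≤ (p : ℝ)⁻¹ * (23 / 20) := by
        refine h1.2.trans (mul_le_mul_of_nonneg_left ?_ (by positivity))
        linarith
      have h4 : (‖zp s p‖ ^ 2) ^ 2 ≤ ((p : ℝ)⁻¹ * (23 / 20)) ^ 2 := pow_le_pow_left₀ (by positivity) h3 2
      have h5 := PP09_pow hp2
      have h6 : (0 : ℝ) ≤ ((p : ℝ)⁻¹) ^ 2 := by positivity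
      rw [mul_pow] at h4
      nlinarith
  constructor
  · unfold nz Sp EE
    rw [Finset.mul_sum, ← Finset.sum_neg_distrib, ← Finset.sum_add_distrib, Real.exp_sum]
    refine Finset.prod_le_prod (fun p hp => ?_) fun p hp => ?_
    · have := (hbasic p hp).2.1
      linarith
    · obtain ⟨h1, h2, h3, h4, h5, h6⟩ := hbasic p hp
      have h7 := Real.add_one_le_exp (-(‖zp s p‖ ^ 2))
      have h8 : Real.exp (-(‖zp s p‖ ^ 2)) ≤ Real.exp (-(p : ℝ)⁻¹ + 12 * (‖s‖ * Real.log p / p + (p : ℝ) ^ (-(3 / 2) : ℝ))) :=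
        Real.exp_le_exp.2 (by linarith)
      linarith
  · unfold LibFG78.nz4 Sp EE
    rw [Finset.mul_sum, Finset.mul_sum, ← Finset.sum_neg_distrib, ← Finset.sum_add_distrib, Real.exp_sum]
    refine Finset.prod_le_prod (fun p hp => ?_) fun p hp => ?_
    · have := LibFG78.Gsum_two_pos (hbasic p hp).1 (hbasic p hp).2.1
      exact inv_nonneg.2 (by linarith)
    · obtain ⟨h1, h2, h3, h4, h5, h6⟩ := hbasic p hp
      refine (PP09_one h1 h2).trans (Real.exp_le_exp.2 ?_)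
      linarith

end Pool.Agent.LibST15
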