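import Mathlib
import Pool.Agent.LibST15.PDefs

/-! # Row PP05: second order expansion -/

set_option autoImplicit false

namespace Pool.Agent.LibST15

open MeasureTheory Filter Topology Pool.Agent.LibMM99 Pool.Agent.LibTG78
open scoped ComplexConjugate

private theorem PP05_pow (m : ℕ) : ∃ C : ℝ, 0 ≤ C ∧ ∀ w : ℂ, ‖w‖ ≤ 39 / 50 →
    ‖((1 - w)⁻¹) ^ m - (1 + m * w + ((m : ℂ) * (m + 1) / 2) * w ^ 2)‖ ≤ C * ‖w‖ ^ 3 := by
  induction m with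
  | zero =>
    refine ⟨0, le_rfl, fun w _ => ?_⟩
    simp
  | succ m ih =>
    obtain ⟨C, hC, h⟩ := ih
    refine ⟨5 * (C + ((m : ℝ) + 1) * (m + 2) / 2), by positivity, fun w hw => ?_⟩
    have h1 : 11 / 50 ≤ ‖1 - w‖ := by
      have := norm_sub_norm_le (1 : ℂ) w
      rw [norm_one] at this
      linarith
    have h0 : (1 - w) ≠ 0 := by
      intro h2
      rw [h2, norm_zero] at h1
      norm_num at h1
    have h2 : ‖(1 - w)⁻¹‖ ≤ 5 := by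
      rw [norm_inv, inv_le_comm₀ (by linarith) (by norm_num)]
      linarith
    have h3 : ((1 - w)⁻¹) ^ (m + 1) - (1 + ((m + 1 : ℕ) : ℂ) * w +
        (((m + 1 : ℕ) : ℂ) * (((m + 1 : ℕ) : ℂ) + 1) / 2) * w ^ 2) =
        (1 - w)⁻¹ * ((((1 - w)⁻¹) ^ m - (1 + m * w + ((m : ℂ) * (m + 1) / 2) * w ^ 2)) +
          (((m : ℂ) + 1) * (m + 2) / 2) * w ^ 3) := by
      have h4 : (1 + ((m + 1 : ℕ) : ℂ) * w +
        (((m + 1 : ℕ) : ℂ) * (((m + 1 : ℕ) : ℂ) + 1) / 2) * w ^ 2) =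
        (1 - w)⁻¹ * ((1 - w) * (1 + ((m + 1 : ℕ) : ℂ) * w +
        (((m + 1 : ℕ) : ℂ) * (((m + 1 : ℕ) : ℂ) + 1) / 2) * w ^ 2)) := by
        rw [← mul_assoc, inv_mul_cancel₀ h0, one_mul]
      rw [h4, pow_succ']
      rw [← mul_sub]
      push_cast
      ring
    rw [h3, norm_mul]
    have h5 : ‖(((m : ℂ) + 1) * (m + 2) / 2) * w ^ 3‖ = (((m : ℝ) + 1) * (m + 2) / 2) * ‖w‖ ^ 3 := by
      rw [norm_mul, norm_pow]
      have : ((((m : ℂ) + 1) * (m + 2) / 2)) = ((((m : ℝ) + 1) * (m + 2) / 2 : ℝ) : ℂ) := by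
        push_cast
        ring
      rw [this, Complex.norm_real, Real.norm_of_nonneg (by positivity)]
    have h6 := norm_add_le ((((1 - w)⁻¹) ^ m - (1 + m * w + ((m : ℂ) * (m + 1) / 2) * w ^ 2)))
      ((((m : ℂ) + 1) * (m + 2) / 2) * w ^ 3)
    rw [h5] at h6
    have h7 := h w hw
    calc ‖(1 - w)⁻¹‖ * ‖_‖ ≤ 5 * (C * ‖w‖ ^ 3 + (((m : ℝ) + 1) * (m + 2) / 2) * ‖w‖ ^ 3) :=
          mul_le_mul h2 (by linarith) (norm_nonneg _) (by norm_num)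
      _ = _ := by ring

/-- second order expansion -/
theorem local_expand (m : ℕ) (B : ℝ) (hB : 0 ≤ B) : ∃ C : ℝ, 0 ≤ C ∧ ∀ (r : ℝ) (w v : ℂ), 0 ≤ r → r ≤ 71 / 100 → ‖w‖ ≤ 11 / 10 * r →
    ‖w‖ ≤ 39 / 50 → ‖v‖ ≤ B * r →
    ‖((1 - w)⁻¹) ^ m * Complex.exp v -
      (1 + (m * w + v) + (((m : ℂ) * (m + 1) / 2) * w ^ 2 + m * w * v + v ^ 2 / 2))‖ ≤ C * r ^ 3 := by
  obtain ⟨C1, hC1, h1⟩ := PP05_pow m
  refine ⟨C1 * (11 / 10) ^ 3 * Real.exp B + (1 + m * (11 / 10) + ((m : ℝ) * (m + 1) / 2) * (11 / 10) ^ 2) *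
    (B ^ 3 * Real.exp B) + (m * (11 / 10) * (B ^ 2 / 2) + ((m : ℝ) * (m + 1) / 2) * (11 / 10) ^ 2 * B +
      ((m : ℝ) * (m + 1) / 2) * (11 / 10) ^ 2 * (B ^ 2 / 2)), by positivity, ?_⟩
  intro r w v hr hr1 hw hw1 hv
  have hr2 : r ≤ 1 := by linarith
  have hvB : ‖v‖ ≤ B := hv.trans (mul_le_of_le_one_right hB hr2)
  have e1 := h1 w hw1
  have e2 : ‖Complex.exp v - (1 + v + v ^ 2 / 2)‖ ≤ (B * r) ^ 3 * Real.exp B := by
    have := Complex.norm_exp_sub_sum_le_norm_mul_exp v 3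
    have h3 : ∑ i ∈ Finset.range 3, v ^ i / (i.factorial : ℂ) = 1 + v + v ^ 2 / 2 := by
      simp [Finset.sum_range_succ, Nat.factorial]
    rw [h3] at this
    refine this.trans (mul_le_mul (pow_le_pow_left₀ (norm_nonneg _) hv 3) (Real.exp_le_exp.2 hvB)
      (Real.exp_pos _).le (by positivity))
  have e3 : ‖Complex.exp v‖ ≤ Real.exp B := by
    refine (Complex.norm_exp_le_exp_norm v).trans (Real.exp_le_exp.2 hvB)
  have e4 : ‖(m : ℂ)‖ = m := Complex.norm_natCast m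
  have e5 : ‖((m : ℂ) * (m + 1) / 2)‖ = (m : ℝ) * (m + 1) / 2 := by
    have : (((m : ℂ) * (m + 1) / 2)) = (((m : ℝ) * (m + 1) / 2 : ℝ) : ℂ) := by
      push_cast
      ring
    rw [this, Complex.norm_real, Real.norm_of_nonneg (by positivity)]
  set M : ℝ := (m : ℝ) * (m + 1) / 2 with hM
  have hM0 : 0 ≤ M := by positivity
  have hm0 : (0 : ℝ) ≤ m := Nat.cast_nonneg m
  have hw2 : ‖w‖ ^ 2 ≤ (11 / 10 * r) ^ 2 := pow_le_pow_left₀ (norm_nonneg _) hw 2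
  have hw3 : ‖w‖ ^ 3 ≤ (11 / 10 * r) ^ 3 := pow_le_pow_left₀ (norm_nonneg _) hw 3
  have hv2 : ‖v‖ ^ 2 ≤ (B * r) ^ 2 := pow_le_pow_left₀ (norm_nonneg _) hv 2
  -- decomposition
  have key : ((1 - w)⁻¹) ^ m * Complex.exp v -
      (1 + (m * w + v) + (((m : ℂ) * (m + 1) / 2) * w ^ 2 + m * w * v + v ^ 2 / 2)) =
      (((1 - w)⁻¹) ^ m - (1 + m * w + ((m : ℂ) * (m + 1) / 2) * w ^ 2)) * Complex.exp v +
      (1 + m * w + ((m : ℂ) * (m + 1) / 2) * w ^ 2) * (Complex.exp v - (1 + v + v ^ 2 / 2)) +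
      (m * w * (v ^ 2 / 2) + ((m : ℂ) * (m + 1) / 2) * w ^ 2 * v +
        ((m : ℂ) * (m + 1) / 2) * w ^ 2 * (v ^ 2 / 2)) := by
    ring
  rw [key]
  have n1 : ‖(((1 - w)⁻¹) ^ m - (1 + m * w + ((m : ℂ) * (m + 1) / 2) * w ^ 2)) * Complex.exp v‖ ≤
      C1 * (11 / 10 * r) ^ 3 * Real.exp B := by
    rw [norm_mul]
    exact mul_le_mul (e1.trans (mul_le_mul_of_nonneg_left hw3 hC1)) e3 (norm_nonneg _) (by positivity)
  have n2 : ‖(1 + m * w + ((m : ℂ) * (m + 1) / 2) * w ^ 2)‖ ≤ 1 + m * (11 / 10) + M * (11 / 10) ^ 2 := by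
    have a1 := norm_add_le (1 + m * w) (((m : ℂ) * (m + 1) / 2) * w ^ 2)
    have a2 := norm_add_le (1 : ℂ) (m * w)
    rw [norm_mul, e5, norm_pow] at a1
    rw [norm_mul, e4, norm_one] at a2
    have a3 : ‖w‖ ≤ 11 / 10 := hw.trans (by linarith)
    have a4 : ‖w‖ ^ 2 ≤ (11 / 10) ^ 2 := pow_le_pow_left₀ (norm_nonneg _) a3 2
    have a5 := mul_le_mul_of_nonneg_left a3 hm0
    have a6 := mul_le_mul_of_nonneg_left a4 hM0
    linarith
  have n3 : ‖(1 + m * w + ((m : ℂ) * (m + 1) / 2) * w ^ 2) * (Complex.exp v - (1 + v + v ^ 2 / 2))‖ ≤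
      (1 + m * (11 / 10) + M * (11 / 10) ^ 2) * ((B * r) ^ 3 * Real.exp B) := by
    rw [norm_mul]
    exact mul_le_mul n2 e2 (norm_nonneg _) (by positivity)
  have n4 : ‖m * w * (v ^ 2 / 2)‖ ≤ m * (11 / 10 * r) * ((B * r) ^ 2 / 2) := by
    rw [norm_mul, norm_mul, e4, norm_div, norm_pow, Complex.norm_ofNat]
    exact mul_le_mul (mul_le_mul_of_nonneg_left hw hm0) (by linarith) (by positivity) (by positivity)
  have n5 : ‖((m : ℂ) * (m + 1) / 2) * w ^ 2 * v‖ ≤ M * (11 / 10 * r) ^ 2 * (B * r) := by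
    rw [norm_mul, norm_mul, e5, norm_pow]
    exact mul_le_mul (mul_le_mul_of_nonneg_left hw2 hM0) hv (by positivity) (by positivity)
  have n6 : ‖((m : ℂ) * (m + 1) / 2) * w ^ 2 * (v ^ 2 / 2)‖ ≤ M * (11 / 10 * r) ^ 2 * ((B * r) ^ 2 / 2) := by
    rw [norm_mul, norm_mul, e5, norm_pow, norm_div, norm_pow, Complex.norm_ofNat]
    exact mul_le_mul (mul_le_mul_of_nonneg_left hw2 hM0) (by linarith) (by positivity) (by positivity)
  have n7 : M * (11 / 10 * r) ^ 2 * ((B * r) ^ 2 / 2) ≤ M * (11 / 10) ^ 2 * (B ^ 2 / 2) * r ^ 3 := by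
    have : r ^ 4 ≤ r ^ 3 := pow_le_pow_of_le_one hr hr2 (by norm_num)
    have h8 : M * (11 / 10 * r) ^ 2 * ((B * r) ^ 2 / 2) = M * (11 / 10) ^ 2 * (B ^ 2 / 2) * r ^ 4 := by ring
    rw [h8]
    exact mul_le_mul_of_nonneg_left this (by positivity)
  refine (norm_add_le _ _).trans ?_
  refine (add_le_add ((norm_add_le _ _).trans (add_le_add n1 n3))
    ((norm_add_le _ _).trans (add_le_add ((norm_add_le _ _).trans (add_le_add n4 n5)) (n6.trans n7)))).trans ?_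
  apply le_of_eq
  ring

end Pool.Agent.LibST15
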