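import Mathlib
import Pool.Agent.LibST15.PDefs

/-! # Row PP06: orthogonality -/

set_option autoImplicit false

namespace Pool.Agent.LibST15

open MeasureTheory Filter Topology Pool.Agent.LibMM99 Pool.Agent.LibTG78
open scoped ComplexConjugate

private theorem PP06_ch_pow (x : Om) {p : ℕ} (hp : p ≠ 0) (i : ℕ) : ch x (p ^ i) = ch x p ^ i := by
  induction i with
  | zero => rw [pow_zero, pow_zero, ch_one]
  | succ i ih => rw [pow_succ, ch_mul x (pow_ne_zero i hp) hp, ih, pow_succ]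

theorem int_two {p : ℕ} (hp : p.Prime) (a b : ℂ) :
    ∫ x, ‖1 + a * ch x p + b * ch x p ^ 2‖ ^ 2 ∂mu = 1 + ‖a‖ ^ 2 + ‖b‖ ^ 2 := by
  have hp0 : (0 : ℝ) < p := by exact_mod_cast hp.pos
  have hs : ∀ i : ℕ, (0 : ℝ) < Real.sqrt ((p ^ i : ℕ) : ℝ) := by
    intro i
    apply Real.sqrt_pos.2
    exact_mod_cast pow_pos hp.pos i
  let c : ℕ → ℂ := fun i => if i = 0 then 1 else if i = 1 then a else b
  have h := integral_norm_sq' (Finset.range 3) (fun i => p ^ i)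
    (fun i => c i * ((Real.sqrt ((p ^ i : ℕ) : ℝ) : ℝ) : ℂ))
    (fun i _ => Nat.one_le_iff_ne_zero.2 (pow_ne_zero i hp.ne_zero))
    (fun i _ j _ hij => Nat.pow_right_injective hp.two_le hij)
  have e1 : ∀ x : Om, (∑ i ∈ Finset.range 3, c i * ((Real.sqrt ((p ^ i : ℕ) : ℝ) : ℝ) : ℂ) *
      (((Real.sqrt ((p ^ i : ℕ) : ℝ))⁻¹ : ℝ) : ℂ) * ch x (p ^ i)) = 1 + a * ch x p + b * ch x p ^ 2 := by
    intro x
    have e2 : ∀ i : ℕ, c i * ((Real.sqrt ((p ^ i : ℕ) : ℝ) : ℝ) : ℂ) *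
      (((Real.sqrt ((p ^ i : ℕ) : ℝ))⁻¹ : ℝ) : ℂ) * ch x (p ^ i) = c i * ch x p ^ i := by
      intro i
      have : ((Real.sqrt ((p ^ i : ℕ) : ℝ) : ℝ) : ℂ) * (((Real.sqrt ((p ^ i : ℕ) : ℝ))⁻¹ : ℝ) : ℂ) = 1 := by
        rw [← Complex.ofReal_mul, mul_inv_cancel₀ (hs i).ne', Complex.ofReal_one]
      rw [mul_assoc (c i), this, mul_one, PP06_ch_pow x hp.ne_zero]
    rw [Finset.sum_congr rfl (fun i _ => e2 i)]
    simp [Finset.sum_range_succ, c]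
  have e3 : (∑ i ∈ Finset.range 3, ‖c i * ((Real.sqrt ((p ^ i : ℕ) : ℝ) : ℝ) : ℂ)‖ ^ 2 / ((p ^ i : ℕ) : ℝ)) =
      1 + ‖a‖ ^ 2 + ‖b‖ ^ 2 := by
    have e4 : ∀ i : ℕ, ‖c i * ((Real.sqrt ((p ^ i : ℕ) : ℝ) : ℝ) : ℂ)‖ ^ 2 / ((p ^ i : ℕ) : ℝ) = ‖c i‖ ^ 2 := by
      intro i
      have h0 : (0 : ℝ) < ((p ^ i : ℕ) : ℝ) := by exact_mod_cast pow_pos hp.pos i
      rw [norm_mul, mul_pow, Complex.norm_real, Real.norm_of_nonneg (hs i).le, Real.sq_sqrt h0.le,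
        mul_div_assoc, div_self h0.ne', mul_one]
    rw [Finset.sum_congr rfl (fun i _ => e4 i)]
    simp [Finset.sum_range_succ, c]
  rw [← e3, ← h]
  apply integral_congr_ae
  refine Filter.Eventually.of_forall fun x => ?_
  show ‖1 + a * ch x p + b * ch x p ^ 2‖ ^ 2 = _
  rw [← e1 x]

end Pool.Agent.LibST15
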