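import Mathlib
import Pool.Agent.LibST15.PDefs
import Pool.Agent.LibST15.PP05
import Pool.Agent.LibST15.PP06

/-! # Row PP07: the local integral -/

set_option autoImplicit false

namespace Pool.Agent.LibST15

open MeasureTheory Filter Topology Pool.Agent.LibMM99 Pool.Agent.LibTG78
open scoped ComplexConjugate

/-- the norm of the square of the local factor -/
private theorem PP07_sq (m : ℕ) (w v : ℂ) (t : ℝ) (ht : t = 2 * v.re) :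
    ‖((1 - w)⁻¹) ^ m * Complex.exp v‖ ^ 2 = ‖(1 - w)⁻¹‖ ^ (2 * m) * Real.exp t := by
  rw [norm_mul, norm_pow, Complex.norm_exp, mul_pow, ← pow_mul, mul_comm m 2, ht,
    ← Real.exp_nat_mul]
  norm_num

private theorem PP07_rsmall {p : ℕ} (hp : p.Prime) : (Real.sqrt p)⁻¹ ≤ 71 / 100 := by
  have h2 : (2 : ℝ) ≤ p := by exact_mod_cast hp.two_le
  have h1 : (100 / 71 : ℝ) ≤ Real.sqrt p := by
    apply Real.le_sqrt_of_sq_le
    norm_num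
    linarith
  have h3 := inv_anti₀ (by norm_num : (0 : ℝ) < 100 / 71) h1
  norm_num at h3 ⊢
  exact h3

private theorem PP07_cube {p : ℕ} (hp : p.Prime) :
    (p : ℝ) ^ (-(3 / 2) : ℝ) = ((Real.sqrt p)⁻¹) ^ 3 := by
  have hp0 : (0 : ℝ) < p := by exact_mod_cast hp.pos
  rw [Real.sqrt_eq_rpow, ← Real.rpow_neg hp0.le, ← Real.rpow_natCast, ← Real.rpow_mul hp0.le]
  norm_num

theorem local_int (m : ℕ) (B : ℝ) (hB : 0 ≤ B) : ∃ C : ℝ, 0 ≤ C ∧ ∀ (s : ℂ) (L : ℝ), Adm s L → ∀ p : ℕ, p.Prime →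
    (p : ℝ) ≤ Real.exp L → ∀ β : ℂ, ‖β‖ ≤ B →
    ∫ x, ‖(1 - zp s p * ch x p)⁻¹‖ ^ (2 * m) * Real.exp ((β * ch x p).re / Real.sqrt p) ∂mu ≤
      Real.exp (‖(m : ℂ) * zp s p + β / (2 * (Real.sqrt p : ℂ))‖ ^ 2 + C * (p : ℝ) ^ (-(3 / 2) : ℝ)) := by
  obtain ⟨C0, hC0, hexp⟩ := local_expand m B hB
  obtain ⟨K2, hK2d⟩ : ∃ K2 : ℝ, K2 = m * (m + 1) + 2 * m * B + B ^ 2 := ⟨_, rfl⟩
  have hm0 : (0 : ℝ) ≤ m := by positivity
  have hK2 : 0 ≤ K2 := by rw [hK2d]; positivity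
  obtain ⟨K1, hK1d⟩ : ∃ K1 : ℝ, K1 = 1 + (2 * m + B) + K2 := ⟨_, rfl⟩
  have hK1 : 0 ≤ K1 := by rw [hK1d]; positivity
  refine ⟨K2 ^ 2 + 2 * K1 * C0 + C0 ^ 2, by positivity, ?_⟩
  intro s L hs p hp hpL β hβ
  obtain ⟨hr0, hr1, hrr⟩ := Pool.Agent.LibPH45.P12_r hp
  obtain ⟨hz1, hz2⟩ := Pool.Agent.LibPH45.P12_bd hs hp hpL
  have hr7 := PP07_rsmall hp
  rw [PP07_cube hp]
  have hsq0 : (0 : ℝ) < Real.sqrt p := inv_pos.1 hr0
  obtain ⟨r, hr⟩ : ∃ r, r = (Real.sqrt p)⁻¹ := ⟨_, rfl⟩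
  obtain ⟨z, hz⟩ : ∃ z, z = zp s p := ⟨_, rfl⟩
  obtain ⟨b, hb⟩ : ∃ b : ℂ, b = β / (2 * (Real.sqrt p : ℂ)) := ⟨_, rfl⟩
  rw [← hr] at hr0 hr1 hr7 hz1
  rw [← hz] at hz1 hz2
  rw [← hr, ← hz, ← hb]
  have hbn : ‖b‖ ≤ B / 2 * r := by
    rw [hb, norm_div, norm_mul, Complex.norm_real, Real.norm_of_nonneg hsq0.le, hr]
    have h2 : ‖(2 : ℂ)‖ = 2 := by norm_num
    rw [h2]
    calc ‖β‖ / (2 * Real.sqrt p) = ‖β‖ * (1 / 2 * (Real.sqrt p)⁻¹) := by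
          field_simp
      _ ≤ B * (1 / 2 * (Real.sqrt p)⁻¹) := by
          refine mul_le_mul_of_nonneg_right hβ ?_
          positivity
      _ = B / 2 * (Real.sqrt p)⁻¹ := by ring
  have hbr : ‖b‖ ≤ B * r := by
    have : 0 ≤ B * r := by positivity
    linarith
  have hr2 : r ^ 2 ≤ 1 := by nlinarith
  -- coefficients
  obtain ⟨c1, hc1⟩ : ∃ c1 : ℂ, c1 = m * z + b := ⟨_, rfl⟩
  obtain ⟨c2, hc2⟩ : ∃ c2 : ℂ, c2 = ((m : ℂ) * (m + 1) / 2) * z ^ 2 + m * z * b + b ^ 2 / 2 :=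
    ⟨_, rfl⟩
  rw [← hc1]
  have hmn : ‖(m : ℂ)‖ = m := by simp
  have hm1n : ‖(m : ℂ) + 1‖ = m + 1 := by
    have : (m : ℂ) + 1 = ((m + 1 : ℕ) : ℂ) := by push_cast; ring
    rw [this, Complex.norm_natCast]
    push_cast
    ring
  have h2n : ‖(2 : ℂ)‖ = 2 := by norm_num
  have hc1n : ‖c1‖ ≤ 2 * m + B := by
    rw [hc1]
    refine (norm_add_le _ _).trans ?_
    rw [norm_mul, hmn]
    have h1 : (m : ℝ) * ‖z‖ ≤ m * 2 := mul_le_mul_of_nonneg_left (by linarith) hm0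
    have h2 : B * r ≤ B := mul_le_of_le_one_right hB hr1
    linarith
  have hc2n : ‖c2‖ ≤ K2 * r ^ 2 := by
    rw [hc2]
    refine (norm_add₃_le ..).trans ?_
    rw [norm_mul, norm_div, norm_mul, hmn, hm1n, h2n, norm_pow, norm_mul, norm_mul, hmn, norm_div,
      norm_pow, h2n]
    have hz2' : ‖z‖ ^ 2 ≤ 2 * r ^ 2 := by
      have := pow_le_pow_left₀ (norm_nonneg z) hz1 2
      nlinarith [sq_nonneg r]
    have hzb : ‖z‖ * ‖b‖ ≤ 2 * B * r ^ 2 := by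
      have h3 : ‖z‖ ≤ 2 * r := by linarith
      calc ‖z‖ * ‖b‖ ≤ (2 * r) * (B * r) :=
            mul_le_mul h3 hbr (norm_nonneg _) (by positivity)
        _ = 2 * B * r ^ 2 := by ring
    have hb2 : ‖b‖ ^ 2 ≤ B ^ 2 * r ^ 2 := by
      have := pow_le_pow_left₀ (norm_nonneg b) hbr 2
      rwa [mul_pow] at this
    have e1 : (m : ℝ) * (m + 1) / 2 * ‖z‖ ^ 2 ≤ (m : ℝ) * (m + 1) / 2 * (2 * r ^ 2) :=
      mul_le_mul_of_nonneg_left hz2' (by positivity)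
    have e2 : (m : ℝ) * (‖z‖ * ‖b‖) ≤ m * (2 * B * r ^ 2) :=
      mul_le_mul_of_nonneg_left hzb hm0
    have e3 : 0 ≤ B ^ 2 * r ^ 2 := by positivity
    rw [hK2d]
    nlinarith
  have hc2n' : ‖c2‖ ≤ K2 := hc2n.trans (mul_le_of_le_one_right hK2 hr2)
  -- the pointwise estimate
  have key : ∀ x : Om, ‖(1 - z * ch x p)⁻¹‖ ^ (2 * m) *
      Real.exp ((β * ch x p).re / Real.sqrt p) ≤
      ‖1 + c1 * ch x p + c2 * ch x p ^ 2‖ ^ 2 + (2 * K1 * C0 + C0 ^ 2) * r ^ 3 := by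
    intro x
    have hch := norm_ch x p
    have hw : ‖z * ch x p‖ = ‖z‖ := by rw [norm_mul, hch, mul_one]
    have hv : ‖b * ch x p‖ = ‖b‖ := by rw [norm_mul, hch, mul_one]
    have h1 := hexp r (z * ch x p) (b * ch x p) hr0.le hr7 (by rw [hw]; exact hz1)
      (by rw [hw]; exact hz2) (by rw [hv]; exact hbr)
    have h2 : (β * ch x p).re / Real.sqrt p = 2 * (b * ch x p).re := by
      have h3 : b * ch x p = ((1 / (2 * Real.sqrt p) : ℝ) : ℂ) * (β * ch x p) := by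
        rw [hb]
        push_cast
        ring
      rw [h3, Complex.re_ofReal_mul]
      field_simp
    rw [← PP07_sq m (z * ch x p) (b * ch x p) _ h2]
    have h4 : (1 + (m * (z * ch x p) + b * ch x p) + (((m : ℂ) * (m + 1) / 2) * (z * ch x p) ^ 2 +
        m * (z * ch x p) * (b * ch x p) + (b * ch x p) ^ 2 / 2)) =
        1 + c1 * ch x p + c2 * ch x p ^ 2 := by
      rw [hc1, hc2]
      ring
    rw [h4] at h1
    obtain ⟨g, hg⟩ : ∃ g, g = ((1 - z * ch x p)⁻¹) ^ m * Complex.exp (b * ch x p) := ⟨_, rfl⟩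
    obtain ⟨h, hh⟩ : ∃ h, h = 1 + c1 * ch x p + c2 * ch x p ^ 2 := ⟨_, rfl⟩
    rw [← hg, ← hh] at h1 ⊢
    have hhn : ‖h‖ ≤ K1 := by
      rw [hh]
      refine (norm_add₃_le ..).trans ?_
      rw [norm_one, norm_mul, norm_mul, norm_pow, hch, one_pow, mul_one, mul_one, hK1d]
      linarith
    have hg1 : ‖g‖ ≤ ‖h‖ + ‖g - h‖ := by
      have : g = h + (g - h) := by ring
      calc ‖g‖ = ‖h + (g - h)‖ := by rw [← this]
        _ ≤ _ := norm_add_le _ _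
    have hr3 : 0 ≤ r ^ 3 := by positivity
    have hr3' : r ^ 3 ≤ 1 := pow_le_one₀ hr0.le hr1
    have hd0 := norm_nonneg (g - h)
    have hn0 := norm_nonneg h
    have h5 : ‖g‖ ^ 2 ≤ (‖h‖ + ‖g - h‖) ^ 2 := pow_le_pow_left₀ (norm_nonneg g) hg1 2
    have h6 : ‖h‖ * ‖g - h‖ ≤ K1 * (C0 * r ^ 3) := mul_le_mul hhn h1 hd0 hK1
    have h7 : ‖g - h‖ ^ 2 ≤ C0 ^ 2 * r ^ 3 := by
      calc ‖g - h‖ ^ 2 ≤ (C0 * r ^ 3) ^ 2 := pow_le_pow_left₀ hd0 h1 2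
        _ = C0 ^ 2 * r ^ 3 * r ^ 3 := by ring
        _ ≤ C0 ^ 2 * r ^ 3 * 1 := mul_le_mul_of_nonneg_left hr3' (by positivity)
        _ = C0 ^ 2 * r ^ 3 := mul_one _
    nlinarith
  have hint : Integrable (fun x : Om => ‖1 + c1 * ch x p + c2 * ch x p ^ 2‖ ^ 2) mu := by
    by_contra hni
    have h1 := int_two hp c1 c2
    rw [integral_undef hni] at h1
    have h2 : 0 ≤ ‖c1‖ ^ 2 := by positivity
    have h3 : 0 ≤ ‖c2‖ ^ 2 := by positivity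
    linarith
  have hmono : ∫ x, ‖(1 - z * ch x p)⁻¹‖ ^ (2 * m) *
      Real.exp ((β * ch x p).re / Real.sqrt p) ∂mu ≤
      ∫ x, (‖1 + c1 * ch x p + c2 * ch x p ^ 2‖ ^ 2 + (2 * K1 * C0 + C0 ^ 2) * r ^ 3) ∂mu := by
    refine integral_mono_of_nonneg (Eventually.of_forall fun x => ?_)
      (hint.add (integrable_const _)) (Eventually.of_forall key)
    have : 0 ≤ ‖(1 - z * ch x p)⁻¹‖ ^ (2 * m) *
      Real.exp ((β * ch x p).re / Real.sqrt p) := by positivity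
    exact this
  refine hmono.trans ?_
  rw [integral_add hint (integrable_const _), int_two hp, integral_const]
  have hone : mu.real Set.univ = 1 := by simp
  rw [hone, one_smul]
  have hc22 : ‖c2‖ ^ 2 ≤ K2 ^ 2 * r ^ 3 := by
    calc ‖c2‖ ^ 2 ≤ (K2 * r ^ 2) ^ 2 := pow_le_pow_left₀ (norm_nonneg c2) hc2n 2
      _ = K2 ^ 2 * r ^ 3 * r := by ring
      _ ≤ K2 ^ 2 * r ^ 3 * 1 := mul_le_mul_of_nonneg_left hr1 (by positivity)
      _ = K2 ^ 2 * r ^ 3 := mul_one _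
  have hfin := Real.add_one_le_exp (‖c1‖ ^ 2 + (K2 ^ 2 + 2 * K1 * C0 + C0 ^ 2) * r ^ 3)
  refine le_trans ?_ hfin
  nlinarith

end Pool.Agent.LibST15
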