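import Mathlib
import Pool.Agent.LibST15.PDefs
import Pool.Agent.LibST15.PP07

/-! # Row PP10: the integral over one scale as a product -/

set_option autoImplicit false

namespace Pool.Agent.LibST15

open MeasureTheory Filter Topology Pool.Agent.LibMM99 Pool.Agent.LibTG78
open scoped ComplexConjugate

theorem PP10_QQ (u v : ℝ) (β : ℂ) (x : Om) :
    (β * QQ u v x).re = ∑ p ∈ prm u v, (β * ch x p).re / Real.sqrt p := by
  unfold QQ DS
  rw [Finset.mul_sum, Complex.re_sum]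
  refine Finset.sum_congr rfl fun p _ => ?_
  have e : β * (1 * (((Real.sqrt p)⁻¹ : ℝ) : ℂ) * ch x p) = (((Real.sqrt p)⁻¹ : ℝ) : ℂ) * (β * ch x p) := by ring
  rw [e, Complex.re_ofReal_mul, div_eq_inv_mul]

theorem PP10_point (m : ℕ) (s : ℂ) (u v : ℝ) (β : ℂ) (x : Om) :
    ‖ZZ s u v x‖ ^ (2 * m) * Real.exp ((β * QQ u v x).re) =
      ∏ p ∈ prm u v, (‖(1 - zp s p * ch x p)⁻¹‖ ^ (2 * m) * Real.exp ((β * ch x p).re / Real.sqrt p)) := by
  rw [PP10_QQ, Real.exp_sum, Finset.prod_mul_distrib]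
  congr 1
  unfold ZZ
  rw [norm_prod, Finset.prod_pow]

/-- the tilted mean of an exponential of the real part of a multiple of the prime sum, as a product -/
theorem scale_prod (m : ℕ) (B : ℝ) (hB : 0 ≤ B) : ∃ C : ℝ, 0 ≤ C ∧ ∀ (s : ℂ) (L u v : ℝ), Adm s L → v ≤ Real.exp L →
    ∀ β : ℂ, ‖β‖ ≤ B →
    ∫ x, ‖ZZ s u v x‖ ^ (2 * m) * Real.exp ((β * QQ u v x).re) ∂mu ≤
      Real.exp (∑ p ∈ prm u v, (‖(m : ℂ) * zp s p + β / (2 * (Real.sqrt p : ℂ))‖ ^ 2 + C * (p : ℝ) ^ (-(3 / 2) : ℝ))) := by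
  obtain ⟨C, hC, h⟩ := local_int m B hB
  refine ⟨C, hC, fun s L u v hs hv β hβ => ?_⟩
  have hcc : ∀ p ∈ prm u v, Continuous fun x : Om => (1 - zp s p * ch x p)⁻¹ := fun p hp =>
    B03_cont (norm_zp_lt hs (mem_prm.1 hp).1.two_le ((mem_prm.1 hp).2.2.trans hv)) p
  simp only [PP10_point]
  rw [B03_prod (fun p x => ‖(1 - zp s p * ch x p)⁻¹‖ ^ (2 * m) * Real.exp ((β * ch x p).re / Real.sqrt p)) (prm u v)
    (fun p hp => ((hcc p hp).norm.pow _).mul (Real.continuous_exp.comp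
      ((Complex.continuous_re.comp (continuous_const.mul (continuous_ch p))).div_const _)))
    (fun p hp => ?_), Real.exp_sum]
  · refine Finset.prod_le_prod (fun p _ => integral_nonneg fun x => by positivity) fun p hp => ?_
    exact h s L hs p (mem_prm.1 hp).1 ((mem_prm.1 hp).2.2.trans hv) β hβ
  · intro x y hxy
    have hp' := (mem_prm.1 hp).1
    have h2 : ch x p = ch y p := dependsOn_ch p (x := x) (y := y) (fun i hi => hxy i (by
      rw [hp'.primeFactors] at hi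
      simpa using hi))
    simp only [h2]

end Pool.Agent.LibST15
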