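import Mathlib
import Pool.Agent.LibST15.PDefs
import Pool.Agent.LibST15.PP08
import Pool.Agent.LibST15.PP09
import Pool.Agent.LibST15.PP10
import Pool.Agent.LibST15.PP14

/-! # Row PP12: tilted mean of the real exponential -/

set_option autoImplicit false

namespace Pool.Agent.LibST15

open MeasureTheory Filter Topology Pool.Agent.LibMM99 Pool.Agent.LibTG78
open scoped ComplexConjugate

theorem PP12_mem {u v : ℝ} {p : ℕ} (hp : p ∈ prm u v) : p.Prime ∧ (p : ℝ) ≤ v := by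
  unfold prm at hp
  rw [Finset.mem_filter, Finset.mem_Icc] at hp
  obtain ⟨⟨h1, h2⟩, h3, h4⟩ := hp
  exact ⟨h3, (Nat.le_floor_iff' (by omega)).1 h2⟩

theorem PP12_t1 (s : ℂ) {u v : ℝ} {p : ℕ} (hp : p ∈ prm u v) : 0 ≤ ‖s‖ * Real.log p / p := by
  have h1 : (1 : ℝ) ≤ p := by exact_mod_cast (PP12_mem hp).1.one_lt.le
  have h2 := Real.log_nonneg h1
  positivity

theorem PP12_t2 (p : ℕ) : 0 ≤ (p : ℝ) ^ (-(3 / 2) : ℝ) := Real.rpow_nonneg (Nat.cast_nonneg p) _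

theorem PP12_EE (s : ℂ) (u v : ℝ) : 0 ≤ EE s u v :=
  Finset.sum_nonneg fun p hp => add_nonneg (PP12_t1 s hp) (PP12_t2 p)

/-- one tilted mean of the product form -/
theorem PP12_one (m : ℕ) (B : ℝ) (hB : 0 ≤ B) : ∃ C : ℝ, 0 ≤ C ∧ ∀ (s : ℂ) (L u v : ℝ), Adm s L → v ≤ Real.exp L →
    ∀ β : ℝ, |β| ≤ B →
    ∫ x, ‖ZZ s u v x‖ ^ (2 * m) * Real.exp (β * (QQ u v x).re) ∂mu ≤
      Real.exp ((m + β / 2) ^ 2 * Sp u v + C * EE s u v) := by
  obtain ⟨C8, h80, h8⟩ := c1_real m B hB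
  obtain ⟨C10, h100, h10⟩ := scale_prod m B hB
  refine ⟨C8 + C10, by positivity, ?_⟩
  intro s L u v hA hv β hβ
  have hβ' : ‖(β : ℂ)‖ ≤ B := by
    rw [Complex.norm_real]
    exact hβ
  have h := h10 s L u v hA hv (β : ℂ) hβ'
  simp only [Complex.re_ofReal_mul] at h
  refine h.trans (Real.exp_le_exp.mpr ?_)
  have e1 : (m + β / 2) ^ 2 * Sp u v + (C8 + C10) * EE s u v =
      ∑ p ∈ prm u v, ((m + β / 2) ^ 2 * (p : ℝ)⁻¹ +
        (C8 + C10) * (‖s‖ * Real.log p / p + (p : ℝ) ^ (-(3 / 2) : ℝ))) := by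
    rw [Finset.sum_add_distrib, ← Finset.mul_sum, ← Finset.mul_sum]
    rfl
  rw [e1]
  refine Finset.sum_le_sum fun p hp => ?_
  have hm := PP12_mem hp
  have h2 := h8 s L hA p hm.1 (hm.2.trans hv) β hβ
  have t1 := PP12_t1 s hp
  have t2 := PP12_t2 p
  have h3 : 0 ≤ C8 * (p : ℝ) ^ (-(3 / 2) : ℝ) := mul_nonneg h80 t2
  have h4 : 0 ≤ C10 * (‖s‖ * Real.log p / p) := mul_nonneg h100 t1
  nlinarith [h2, h3, h4]

/-- the mean of the real exponential under the tilted measures -/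
theorem mean_real (B : ℝ) (hB : 0 ≤ B) : ∃ C : ℝ, 0 ≤ C ∧ ∀ (s : ℂ) (L u v : ℝ), Adm s L → 1 ≤ u → u ≤ v → v ≤ Real.exp L →
    ∀ β : ℝ, |β| ≤ B →
    ∫ x, Real.exp (β * (QQ u v x).re) ∂(nu s L) ≤ Real.exp ((β + β ^ 2 / 4) * Sp u v + C * EE s u v) ∧
    ∫ x, Real.exp (β * (QQ u v x).re) ∂(LibFG78.nu4 s L) ≤ Real.exp ((2 * β + β ^ 2 / 4) * Sp u v + C * EE s u v) := by
  obtain ⟨C9, h90, h9⟩ := nz_factor
  obtain ⟨C1, h10, h1⟩ := PP12_one 1 B hB
  obtain ⟨C2, h20, h2⟩ := PP12_one 2 B hB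
  refine ⟨C9 + C1 + C2, by positivity, ?_⟩
  intro s L u v hA hu huv hv β hβ
  have hc : Continuous fun x => Real.exp (β * (QQ u v x).re) :=
    Real.continuous_exp.comp (continuous_const.mul (Complex.continuous_re.comp (QQ_cont u v)))
  have hd : DependsOn (fun x => Real.exp (β * (QQ u v x).re)) (coo u v) := by
    intro x y hxy
    have h := QQ_dep u v hxy
    simp only [h]
  have hE := PP12_EE s u v
  have n9 := h9 s L u v hA hv
  have i1 := h1 s L u v hA hv β hβ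
  have i2 := h2 s L u v hA hv β hβ
  simp only [mul_one] at i1
  have e22 : (2 * 2 : ℕ) = 4 := rfl
  rw [e22] at i2
  constructor
  · rw [integral_nu_loc hA hu huv hv hc hd]
    have j0 : 0 ≤ ∫ x, ‖ZZ s u v x‖ ^ 2 * Real.exp (β * (QQ u v x).re) ∂mu :=
      integral_nonneg fun x => by positivity
    refine (mul_le_mul n9.1 i1 j0 (Real.exp_pos _).le).trans ?_
    rw [← Real.exp_add]
    refine Real.exp_le_exp.mpr ?_
    push_cast
    nlinarith [mul_nonneg h20 hE]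
  · rw [LibFG78.integral_nu_loc hA hu huv hv hc hd]
    have j0 : 0 ≤ ∫ x, ‖ZZ s u v x‖ ^ 4 * Real.exp (β * (QQ u v x).re) ∂mu :=
      integral_nonneg fun x => by positivity
    refine (mul_le_mul n9.2 i2 j0 (Real.exp_pos _).le).trans ?_
    rw [← Real.exp_add]
    refine Real.exp_le_exp.mpr ?_
    push_cast
    nlinarith [mul_nonneg h10 hE]

end Pool.Agent.LibST15
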