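import Mathlib
import Pool.Agent.LibST15.PDefs
import Pool.Agent.LibST15.PP08
import Pool.Agent.LibST15.PP10
import Pool.Agent.LibST15.PP11
import Pool.Agent.LibST15.PP14

/-! # Row PP13: tilted mean of the exponential of the norm -/

set_option autoImplicit false

namespace Pool.Agent.LibST15

open MeasureTheory Filter Topology Pool.Agent.LibMM99 Pool.Agent.LibTG78
open scoped ComplexConjugate

theorem PP13_norm {c a b : ℝ} (hc : 0 ≤ c) (ha : |a| ≤ 1) (hb : |b| ≤ 1) :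
    ‖((c : ℂ) * ((a : ℂ) + (b : ℂ) * Complex.I))‖ ≤ 2 * c := by
  rw [norm_mul, Complex.norm_real, Real.norm_of_nonneg hc]
  have h1 : ‖((a : ℂ) + (b : ℂ) * Complex.I)‖ ≤ 2 := by
    refine (norm_add_le _ _).trans ?_
    rw [norm_mul, Complex.norm_I, mul_one, Complex.norm_real, Complex.norm_real, Real.norm_eq_abs, Real.norm_eq_abs]
    linarith
  calc c * ‖((a : ℂ) + (b : ℂ) * Complex.I)‖ ≤ c * 2 := mul_le_mul_of_nonneg_left h1 hc
    _ = 2 * c := by ring

theorem PP13_re (c a b : ℝ) (q : ℂ) :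
    (((c : ℂ) * ((a : ℂ) + (b : ℂ) * Complex.I)) * q).re = c * (a * q.re - b * q.im) := by
  simp only [Complex.mul_re, Complex.mul_im, Complex.add_re, Complex.add_im, Complex.ofReal_re, Complex.ofReal_im,
    Complex.I_re, Complex.I_im]
  ring

theorem PP13_four {c : ℝ} (hc : 0 ≤ c) (q : ℂ) :
    Real.exp (c * ‖q‖) ≤ Real.exp ((((c : ℂ) * (((1 : ℝ) : ℂ) + ((1 : ℝ) : ℂ) * Complex.I)) * q).re) +
      Real.exp ((((c : ℂ) * (((1 : ℝ) : ℂ) + ((-1 : ℝ) : ℂ) * Complex.I)) * q).re) +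
      Real.exp ((((c : ℂ) * (((-1 : ℝ) : ℂ) + ((1 : ℝ) : ℂ) * Complex.I)) * q).re) +
      Real.exp ((((c : ℂ) * (((-1 : ℝ) : ℂ) + ((-1 : ℝ) : ℂ) * Complex.I)) * q).re) := by
  rw [PP13_re, PP13_re, PP13_re, PP13_re]
  have h0 := Complex.norm_le_abs_re_add_abs_im q
  have h1 : c * ‖q‖ ≤ c * (|q.re| + |q.im|) := mul_le_mul_of_nonneg_left h0 hc
  have p1 := Real.exp_pos (c * (1 * q.re - 1 * q.im))
  have p2 := Real.exp_pos (c * (1 * q.re - -1 * q.im))
  have p3 := Real.exp_pos (c * (-1 * q.re - 1 * q.im))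
  have p4 := Real.exp_pos (c * (-1 * q.re - -1 * q.im))
  rcases abs_cases q.re with ⟨e1, _⟩ | ⟨e1, _⟩
  · rcases abs_cases q.im with ⟨e2, _⟩ | ⟨e2, _⟩
    · have : Real.exp (c * ‖q‖) ≤ Real.exp (c * (1 * q.re - -1 * q.im)) := by
        apply Real.exp_le_exp.2
        rw [e1, e2] at h1
        linarith
      linarith
    · have : Real.exp (c * ‖q‖) ≤ Real.exp (c * (1 * q.re - 1 * q.im)) := by
        apply Real.exp_le_exp.2
        rw [e1, e2] at h1
        linarith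
      linarith
  · rcases abs_cases q.im with ⟨e2, _⟩ | ⟨e2, _⟩
    · have : Real.exp (c * ‖q‖) ≤ Real.exp (c * (-1 * q.re - -1 * q.im)) := by
        apply Real.exp_le_exp.2
        rw [e1, e2] at h1
        linarith
      linarith
    · have : Real.exp (c * ‖q‖) ≤ Real.exp (c * (-1 * q.re - 1 * q.im)) := by
        apply Real.exp_le_exp.2
        rw [e1, e2] at h1
        linarith
      linarith

theorem PP13_int {m : ℕ} {c K : ℝ} (hc : 0 ≤ c) {s : ℂ} {L u v : ℝ} (h : Adm s L) (hv : v ≤ Real.exp L)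
    (hK : ∀ β : ℂ, ‖β‖ ≤ 2 * c → ∫ x, ‖ZZ s u v x‖ ^ (2 * m) * Real.exp ((β * QQ u v x).re) ∂mu ≤ K) :
    ∫ x, ‖ZZ s u v x‖ ^ (2 * m) * Real.exp (c * ‖QQ u v x‖) ∂mu ≤ 4 * K := by
  have hz : Continuous fun x => ‖ZZ s u v x‖ ^ (2 * m) := (continuous_ZZ h hv).norm.pow _
  have hq := QQ_cont u v
  have hi : ∀ β : ℂ, Integrable (fun x => ‖ZZ s u v x‖ ^ (2 * m) * Real.exp ((β * QQ u v x).re)) mu := fun β =>
    integrable_of_continuous
      (hz.mul (Real.continuous_exp.comp (Complex.continuous_re.comp (continuous_const.mul hq))))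
  have hi0 : Integrable (fun x => ‖ZZ s u v x‖ ^ (2 * m) * Real.exp (c * ‖QQ u v x‖)) mu :=
    integrable_of_continuous (hz.mul (Real.continuous_exp.comp (continuous_const.mul hq.norm)))
  have n1 : |(1 : ℝ)| ≤ 1 := by norm_num
  have n2 : |(-1 : ℝ)| ≤ 1 := by norm_num
  have k1 := hK _ (PP13_norm hc n1 n1)
  have k2 := hK _ (PP13_norm hc n1 n2)
  have k3 := hK _ (PP13_norm hc n2 n1)
  have k4 := hK _ (PP13_norm hc n2 n2)
  have i1 := hi ((c : ℂ) * (((1 : ℝ) : ℂ) + ((1 : ℝ) : ℂ) * Complex.I))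
  have i2 := hi ((c : ℂ) * (((1 : ℝ) : ℂ) + ((-1 : ℝ) : ℂ) * Complex.I))
  have i3 := hi ((c : ℂ) * (((-1 : ℝ) : ℂ) + ((1 : ℝ) : ℂ) * Complex.I))
  have i4 := hi ((c : ℂ) * (((-1 : ℝ) : ℂ) + ((-1 : ℝ) : ℂ) * Complex.I))
  have hm := integral_mono hi0 (((i1.add i2).add i3).add i4) (fun x => by
    have h1 := PP13_four hc (QQ u v x)
    have h2 : 0 ≤ ‖ZZ s u v x‖ ^ (2 * m) := by positivity
    have h3 := mul_le_mul_of_nonneg_left h1 h2
    simp only [Pi.add_apply]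
    calc ‖ZZ s u v x‖ ^ (2 * m) * Real.exp (c * ‖QQ u v x‖) ≤ _ := h3
      _ = _ := by ring)
  rw [integral_add' ((i1.add i2).add i3) i4, integral_add' (i1.add i2) i3, integral_add' i1 i2] at hm
  linarith

/-- crude bound for the exponential of the absolute value, over one scale -/
theorem mean_norm (c : ℝ) (hc : 0 ≤ c) : ∃ C : ℝ, 0 ≤ C ∧ ∀ (s : ℂ) (L u v : ℝ), Adm s L → Real.sqrt 2 ≤ u → u ≤ v →
    Real.log v ≤ 2 * Real.log u → v ≤ Real.exp L →
    ∫ x, Real.exp (c * ‖QQ u v x‖) ∂(nu s L) ≤ C ∧ ∫ x, Real.exp (c * ‖QQ u v x‖) ∂(LibFG78.nu4 s L) ≤ C := by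
  have hB : 0 ≤ 2 * c := by positivity
  obtain ⟨S, hS, hS'⟩ := Sp_near
  obtain ⟨E, hE, hE'⟩ := EE_le
  -- the bound for each m
  have key : ∀ m : ℕ, ∃ K : ℝ, 0 ≤ K ∧ ∀ (s : ℂ) (L u v : ℝ), Adm s L → Real.sqrt 2 ≤ u → u ≤ v →
      Real.log v ≤ 2 * Real.log u → v ≤ Real.exp L →
      ∫ x, ‖ZZ s u v x‖ ^ (2 * m) * Real.exp (c * ‖QQ u v x‖) ∂mu ≤ K := by
    intro m
    obtain ⟨C1, hC1, hC1'⟩ := c1_complex m (2 * c) hB
    obtain ⟨C2, hC2, hC2'⟩ := scale_prod m (2 * c) hB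
    refine ⟨4 * Real.exp (C1 * (Real.log 2 + S) + C2 * E), by positivity, ?_⟩
    intro s L u v h hu huv hlog hv
    have hu1 : 1 ≤ u := by
      refine le_trans ?_ hu
      exact Real.one_le_sqrt.2 (by norm_num)
    have hu1' : 1 < u := by
      refine lt_of_lt_of_le ?_ hu
      rw [Real.lt_sqrt (by norm_num)]
      norm_num
    have hlu : 0 < Real.log u := Real.log_pos hu1'
    have hlv : 0 < Real.log v := Real.log_pos (hu1'.trans_le huv)
    refine PP13_int hc h hv fun β hβ => ?_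
    refine (hC2' s L u v h hv β hβ).trans (Real.exp_le_exp.2 ?_)
    have hSp : Sp u v ≤ Real.log 2 + S := by
      have h1 := (abs_le.1 (hS' u v hu huv)).2
      have h2 : Real.log (Real.log v / Real.log u) ≤ Real.log 2 := by
        apply Real.log_le_log (by positivity)
        rw [div_le_iff₀ hlu]
        exact hlog
      linarith
    have hsum : ∑ p ∈ prm u v, (p : ℝ) ^ (-(3 / 2) : ℝ) ≤ E := by
      refine le_trans ?_ (hE' s L u v h hu1 hv)
      unfold EE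
      refine Finset.sum_le_sum fun p hp => ?_
      have hp1 : (1 : ℝ) ≤ p := by exact_mod_cast (mem_prm.1 hp).1.one_lt.le
      have : 0 ≤ ‖s‖ * Real.log p / p := div_nonneg (mul_nonneg (norm_nonneg _) (Real.log_nonneg hp1)) (by linarith)
      linarith
    calc ∑ p ∈ prm u v, (‖(m : ℂ) * zp s p + β / (2 * (Real.sqrt p : ℂ))‖ ^ 2 + C2 * (p : ℝ) ^ (-(3 / 2) : ℝ))
        ≤ ∑ p ∈ prm u v, (C1 * (p : ℝ)⁻¹ + C2 * (p : ℝ) ^ (-(3 / 2) : ℝ)) := by
          refine Finset.sum_le_sum fun p hp => ?_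
          have := hC1' s L h p (mem_prm.1 hp).1 ((mem_prm.1 hp).2.2.trans hv) β hβ
          linarith
      _ = C1 * Sp u v + C2 * ∑ p ∈ prm u v, (p : ℝ) ^ (-(3 / 2) : ℝ) := by
          rw [Finset.sum_add_distrib, ← Finset.mul_sum, ← Finset.mul_sum]
          rfl
      _ ≤ C1 * (Real.log 2 + S) + C2 * E :=
          add_le_add (mul_le_mul_of_nonneg_left hSp hC1) (mul_le_mul_of_nonneg_left hsum hC2)
  obtain ⟨K1, hK1, hK1'⟩ := key 1
  obtain ⟨K2, hK2, hK2'⟩ := key 2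
  refine ⟨K1 + K2, by positivity, ?_⟩
  intro s L u v h hu huv hlog hv
  have hu1 : 1 ≤ u := by
    refine le_trans ?_ hu
    exact Real.one_le_sqrt.2 (by norm_num)
  have hf : Continuous fun x => Real.exp (c * ‖QQ u v x‖) :=
    Real.continuous_exp.comp (continuous_const.mul (QQ_cont u v).norm)
  have hd : DependsOn (fun x => Real.exp (c * ‖QQ u v x‖)) (coo u v) := by
    intro x y hxy
    have h1 := QQ_dep u v hxy
    simp only [h1]
  have q1 := hK1' s L u v h hu huv hlog hv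
  have q2 := hK2' s L u v h hu huv hlog hv
  constructor
  · rw [integral_nu_loc h hu1 huv hv hf hd]
    have h0 : 0 ≤ ∫ x, ‖ZZ s u v x‖ ^ 2 * Real.exp (c * ‖QQ u v x‖) ∂mu :=
      integral_nonneg fun x => by positivity
    have h1 := mul_le_mul_of_nonneg_right (nz_le_one (u := u) h hv) h0
    rw [one_mul] at h1
    have h2 : 2 * 1 = 2 := rfl
    rw [h2] at q1
    linarith
  · rw [LibFG78.integral_nu_loc h hu1 huv hv hf hd]
    have h0 : 0 ≤ ∫ x, ‖ZZ s u v x‖ ^ 4 * Real.exp (c * ‖QQ u v x‖) ∂mu :=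
      integral_nonneg fun x => by positivity
    have h1 := mul_le_mul_of_nonneg_right (LibFG78.nz_le_one (u := u) h hv) h0
    rw [one_mul] at h1
    have h2 : 2 * 2 = 4 := rfl
    rw [h2] at q2
    linarith

end Pool.Agent.LibST15
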