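import Mathlib
import Pool.Agent.LibST15.PDefs
import Pool.Agent.LibST15.PP03
import Pool.Agent.LibST15.PP11
import Pool.Agent.LibST15.PP12
import Pool.Agent.LibST15.PP13
import Pool.Agent.LibST15.PP14

/-! # Row PP15: the mean at one scale -/

set_option autoImplicit false

namespace Pool.Agent.LibST15

open MeasureTheory Filter Topology Pool.Agent.LibMM99 Pool.Agent.LibTG78
open scoped ComplexConjugate

theorem PP15_int {ν : Measure Om} [IsProbabilityMeasure ν] {α : ℝ} (hα : |α| ≤ 1) {l0 : ℝ} {J i : ℕ}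
    {A M c0 D K : ℝ} (hK : 40 ≤ K) (hKN : K ≤ (Nk J i : ℝ)) (hc0 : 0 < c0) (hA : c0 ≤ Real.exp A)
    (hM : 0 ≤ M)
    (h1 : ∫ x, Real.exp (2 * α * (QQ (tj l0 i) (tj l0 (i + 1)) x).re) ∂ν ≤ Real.exp A)
    (h2 : ∫ x, Real.exp (22 * ‖QQ (tj l0 i) (tj l0 (i + 1)) x‖) ∂ν ≤ M)
    (hD : 3 + 2 * M / c0 ≤ D) :
    ∫ x, ub α l0 J i x ∂ν ≤ Real.exp (A + D * Real.exp (-K / 20)) := by
  have hQ := QQ_cont (tj l0 i) (tj l0 (i + 1))
  have hN : 1 ≤ Nk J i := by
    have : (1 : ℝ) ≤ (Nk J i : ℝ) := by linarith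
    exact_mod_cast this
  have i1 : Integrable (fun x => Real.exp (2 * α * (QQ (tj l0 i) (tj l0 (i + 1)) x).re)) ν :=
    A0_int (by
      exact Real.continuous_exp.comp (continuous_const.mul (Complex.continuous_re.comp hQ)))
  have i2 : Integrable (fun x => Real.exp (22 * ‖QQ (tj l0 i) (tj l0 (i + 1)) x‖)) ν :=
    A0_int (by exact Real.continuous_exp.comp (continuous_const.mul hQ.norm))
  have i0 : Integrable (ub α l0 J i) ν := A0_int (ub_cont α l0 J i)
  have h3 : ∫ x, ub α l0 J i x ∂ν ≤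
      ∫ x, ((1 + 3 * Real.exp (-(Nk J i : ℝ))) * Real.exp (2 * α * (QQ (tj l0 i) (tj l0 (i + 1)) x).re) +
        2 * Real.exp (-(Nk J i : ℝ)) * Real.exp (22 * ‖QQ (tj l0 i) (tj l0 (i + 1)) x‖)) ∂ν :=
    integral_mono i0 ((i1.const_mul _).add (i2.const_mul _)) fun x => uq_le hα hN _
  rw [integral_add (i1.const_mul _) (i2.const_mul _), integral_const_mul, integral_const_mul] at h3
  set e : ℝ := Real.exp (-(Nk J i : ℝ)) with he
  have he0 : 0 < e := Real.exp_pos _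
  have heK : e ≤ Real.exp (-K / 20) := Real.exp_le_exp.mpr (by linarith)
  have h4 : ∫ x, ub α l0 J i x ∂ν ≤ (1 + 3 * e) * Real.exp A + 2 * e * M := by
    refine h3.trans (add_le_add ?_ ?_)
    · exact mul_le_mul_of_nonneg_left h1 (by positivity)
    · exact mul_le_mul_of_nonneg_left h2 (by positivity)
  have h5 : 2 * e * M ≤ Real.exp A * (2 * M / c0 * e) := by
    have h6 : c0 * (2 * M / c0 * e) = 2 * e * M := by field_simp
    rw [← h6]
    exact mul_le_mul_of_nonneg_right hA (by positivity)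
  have h7 : (1 + 3 * e) * Real.exp A + 2 * e * M ≤ Real.exp A * (1 + D * Real.exp (-K / 20)) := by
    have h8 : (3 + 2 * M / c0) * e ≤ D * Real.exp (-K / 20) := by
      have : 0 ≤ 2 * M / c0 := by positivity
      exact mul_le_mul hD heK he0.le (by linarith)
    have h9 := mul_le_mul_of_nonneg_left h8 (Real.exp_pos A).le
    nlinarith
  refine h4.trans (h7.trans ?_)
  rw [Real.exp_add]
  refine mul_le_mul_of_nonneg_left ?_ (Real.exp_pos A).le
  have := Real.add_one_le_exp (D * Real.exp (-K / 20))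
  linarith

theorem ub_mean {α : ℝ} (hα : |α| ≤ 1) : ∃ C : ℝ, 0 ≤ C ∧ ∀ (l0 L : ℝ) (s : ℂ) (J i : ℕ), Real.log 2 / 2 ≤ l0 → i < J →
    l0 * 2 ^ J ≤ L → Adm s L →
    ∫ x, ub α l0 J i x ∂(nu s L) ≤
      Real.exp ((2 * α + α ^ 2) * Sp (tj l0 i) (tj l0 (i + 1)) + C * EE s (tj l0 i) (tj l0 (i + 1)) +
        C * Real.exp (-kap 40 J i / 20)) ∧
    ∫ x, ub α l0 J i x ∂(LibFG78.nu4 s L) ≤
      Real.exp ((4 * α + α ^ 2) * Sp (tj l0 i) (tj l0 (i + 1)) + C * EE s (tj l0 i) (tj l0 (i + 1)) +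
        C * Real.exp (-kap 40 J i / 20)) := by
  obtain ⟨C1, hC1, h1⟩ := mean_real 2 (by norm_num)
  obtain ⟨C2, hC2, h2⟩ := mean_norm 22 (by norm_num)
  obtain ⟨C3, hC3, h3⟩ := Sp_near
  set c0 : ℝ := Real.exp (-(3 * (Real.log 2 + C3))) with hc0
  have hc0p : 0 < c0 := Real.exp_pos _
  set D : ℝ := 3 + 2 * C2 / c0 with hD
  have hDp : 0 ≤ D := by positivity
  obtain ⟨hα1, hα2⟩ := abs_le.mp hα
  refine ⟨C1 + D, by positivity, ?_⟩
  intro l0 L s J i hl0 hi hL hs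
  have hlog2 : 0 < Real.log 2 := Real.log_pos (by norm_num)
  have hl0p : 0 < l0 := by linarith
  set u : ℝ := tj l0 i with hu
  set v : ℝ := tj l0 (i + 1) with hv
  have hlu : Real.log u = l0 * 2 ^ i := by rw [hu, tj, Real.log_exp]
  have hlv : Real.log v = l0 * 2 ^ (i + 1) := by rw [hv, tj, Real.log_exp]
  have h2i : (1 : ℝ) ≤ 2 ^ i := one_le_pow₀ (by norm_num)
  have hu2 : Real.sqrt 2 ≤ u := by
    have e1 : Real.sqrt 2 = Real.exp (Real.log 2 / 2) := by
      rw [← Real.log_sqrt (by norm_num : (0 : ℝ) ≤ 2), Real.exp_log (Real.sqrt_pos.mpr (by norm_num))]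
    rw [e1, hu, tj]
    refine Real.exp_le_exp.mpr ?_
    nlinarith
  have hu1 : 1 ≤ u := by
    refine le_trans ?_ hu2
    rw [Real.one_le_sqrt]
    norm_num
  have huv : u ≤ v := by
    rw [hu, hv, tj, tj]
    refine Real.exp_le_exp.mpr ?_
    rw [pow_succ]
    nlinarith
  have hvL : v ≤ Real.exp L := by
    rw [hv, tj]
    refine Real.exp_le_exp.mpr (le_trans ?_ hL)
    refine mul_le_mul_of_nonneg_left ?_ hl0p.le
    exact pow_le_pow_right₀ (by norm_num) hi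
  have hvu : Real.log v ≤ 2 * Real.log u := by
    rw [hlu, hlv, pow_succ]
    linarith
  have hratio : Real.log v / Real.log u = 2 := by
    rw [hlu, hlv, pow_succ]
    have : l0 * 2 ^ i ≠ 0 := by positivity
    field_simp
  have hSp : Sp u v ≤ Real.log 2 + C3 := by
    have := h3 u v hu2 huv
    rw [hratio] at this
    have := (abs_le.mp this).2
    linarith
  have hSp0 : 0 ≤ Sp u v := Sp_nonneg u v
  have hEE : 0 ≤ EE s u v := EE_nonneg s u v
  have hK : 40 ≤ kap 40 J i := A0_kap_ge (by norm_num) J i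
  have hKN : kap 40 J i ≤ (Nk J i : ℝ) := Nat.le_ceil _
  have := (isProd_nu hs).prob
  have := (LibFG78.isProd_nu hs).prob
  have hβ : |2 * α| ≤ 2 := by
    rw [abs_mul]
    norm_num
    linarith
  obtain ⟨m1, m2⟩ := h1 s L u v hs hu1 huv hvL (2 * α) hβ
  obtain ⟨n1, n2⟩ := h2 s L u v hs hu2 huv hvu hvL
  have hkey : ∀ a : ℝ, -3 ≤ a → c0 ≤ Real.exp (a * Sp u v + C1 * EE s u v) := by
    intro a ha
    refine Real.exp_le_exp.mpr ?_
    have : 0 ≤ C1 * EE s u v := mul_nonneg hC1 hEE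
    nlinarith
  have e1 : (2 * α + (2 * α) ^ 2 / 4) = 2 * α + α ^ 2 := by ring
  have e2 : (2 * (2 * α) + (2 * α) ^ 2 / 4) = 4 * α + α ^ 2 := by ring
  rw [e1] at m1
  rw [e2] at m2
  have k1 := PP15_int (ν := nu s L) hα hK hKN hc0p (hkey (2 * α + α ^ 2) (by nlinarith)) hC2 m1 n1 le_rfl
  have k2 := PP15_int (ν := LibFG78.nu4 s L) hα hK hKN hc0p (hkey (4 * α + α ^ 2) (by nlinarith)) hC2 m2 n2
    le_rfl
  have hle : ∀ a : ℝ, Real.exp (a * Sp u v + C1 * EE s u v + D * Real.exp (-kap 40 J i / 20)) ≤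
      Real.exp (a * Sp u v + (C1 + D) * EE s u v + (C1 + D) * Real.exp (-kap 40 J i / 20)) := by
    intro a
    refine Real.exp_le_exp.mpr ?_
    have t1 : 0 ≤ D * EE s u v := mul_nonneg hDp hEE
    have t2 : 0 ≤ C1 * Real.exp (-kap 40 J i / 20) := mul_nonneg hC1 (Real.exp_pos _).le
    nlinarith
  exact ⟨k1.trans (hle _), k2.trans (hle _)⟩

end Pool.Agent.LibST15
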