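import Mathlib
import Pool.Agent.LibST15.PDefs
import Pool.Agent.LibST15.PP15

/-! # Row PP16: the mean of the product -/

set_option autoImplicit false

namespace Pool.Agent.LibST15

open MeasureTheory Filter Topology Pool.Agent.LibMM99 Pool.Agent.LibTG78
open scoped ComplexConjugate

theorem PP16_mem {u v : ℝ} (hv : 0 ≤ v) {p : ℕ} :
    p ∈ prm u v ↔ p.Prime ∧ u < (p : ℝ) ∧ (p : ℝ) ≤ v := by
  unfold prm
  rw [Finset.mem_filter, Finset.mem_Icc, Nat.le_floor_iff hv]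
  constructor
  · rintro ⟨⟨-, h2⟩, h3, h4⟩
    exact ⟨h3, h4, h2⟩
  · rintro ⟨h1, h2, h3⟩
    exact ⟨⟨h1.one_lt.le, h3⟩, h1, h2⟩

theorem PP16_split {u v w : ℝ} (hu : 0 ≤ u) (huv : u ≤ v) (hvw : v ≤ w) (f : ℕ → ℝ) :
    ∑ p ∈ prm u w, f p = ∑ p ∈ prm u v, f p + ∑ p ∈ prm v w, f p := by
  have hd : Disjoint (prm u v) (prm v w) := by
    rw [Finset.disjoint_left]
    intro p hp hq
    rw [PP16_mem (hu.trans huv)] at hp
    rw [PP16_mem ((hu.trans huv).trans hvw)] at hq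
    exact absurd hp.2.2 (not_le.mpr hq.2.1)
  rw [← Finset.sum_union hd]
  refine Finset.sum_congr ?_ fun _ _ => rfl
  ext p
  rw [Finset.mem_union, PP16_mem (hu.trans huv), PP16_mem ((hu.trans huv).trans hvw),
    PP16_mem ((hu.trans huv).trans hvw)]
  constructor
  · rintro ⟨h1, h2, h3⟩
    rcases le_or_gt (p : ℝ) v with h | h
    · exact Or.inl ⟨h1, h2, h⟩
    · exact Or.inr ⟨h1, h, h3⟩
  · rintro (⟨h1, h2, h3⟩ | ⟨h1, h2, h3⟩)
    · exact ⟨h1, h2, h3.trans hvw⟩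
    · exact ⟨h1, huv.trans_lt h2, h3⟩

theorem PP16_tj_mono {l0 : ℝ} (h0 : 0 ≤ l0) {i j : ℕ} (hij : i ≤ j) : tj l0 i ≤ tj l0 j := by
  unfold tj
  refine Real.exp_le_exp.mpr (mul_le_mul_of_nonneg_left ?_ h0)
  exact pow_le_pow_right₀ (by norm_num) hij

theorem PP16_sum {l0 : ℝ} (h0 : 0 ≤ l0) (f : ℕ → ℝ) (J : ℕ) :
    ∑ i ∈ Finset.range J, ∑ p ∈ prm (tj l0 i) (tj l0 (i + 1)), f p = ∑ p ∈ prm (tj l0 0) (tj l0 J), f p := by
  induction J with
  | zero =>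
    rw [Finset.sum_range_zero]
    symm
    have : prm (tj l0 0) (tj l0 0) = ∅ := by
      ext p
      rw [PP16_mem (by unfold tj; positivity)]
      simp only [Finset.notMem_empty, iff_false]
      rintro ⟨-, h2, h3⟩
      exact absurd h3 (not_le.mpr h2)
    rw [this, Finset.sum_empty]
  | succ J ih =>
    rw [Finset.sum_range_succ, ih]
    exact (PP16_split (by unfold tj; positivity) (PP16_tj_mono h0 (Nat.zero_le J))
      (PP16_tj_mono h0 (Nat.le_succ J)) f).symm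

theorem Sp_sum {l0 : ℝ} (h0 : 0 ≤ l0) (J : ℕ) :
    ∑ i ∈ Finset.range J, Sp (tj l0 i) (tj l0 (i + 1)) = Sp (tj l0 0) (tj l0 J) :=
  PP16_sum h0 (fun p => (p : ℝ)⁻¹) J

theorem EE_sum {l0 : ℝ} (h0 : 0 ≤ l0) (s : ℂ) (J : ℕ) :
    ∑ i ∈ Finset.range J, EE s (tj l0 i) (tj l0 (i + 1)) = EE s (tj l0 0) (tj l0 J) :=
  PP16_sum h0 (fun p => (‖s‖ * Real.log p / p + (p : ℝ) ^ (-(3 / 2) : ℝ))) J

theorem PP16_mean {ν : Measure Om} (hν : IsProd ν) {α a C C' C3 c1 l0 L : ℝ} {s : ℂ} {J : ℕ}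
    (hl0 : 0 < l0) (hL : l0 * 2 ^ J = L) (hL1 : 1 ≤ L) (ha : |a| ≤ 5) (hC : 0 ≤ C)
    (hEE : EE s (tj l0 0) (tj l0 J) ≤ C')
    (hSp : |Sp (tj l0 0) (tj l0 J) - Real.log (L / l0)| ≤ C3) (hc1 : |Real.log l0| ≤ c1)
    (h : ∀ i < J, ∫ x, ub α l0 J i x ∂ν ≤
      Real.exp (a * Sp (tj l0 i) (tj l0 (i + 1)) + C * EE s (tj l0 i) (tj l0 (i + 1)) +
        C * Real.exp (-kap 40 J i / 20))) :
    ∫ x, BB (ub α l0 J) J x ∂ν ≤ Real.exp (5 * (C3 + c1) + C * C' + 2 * C) * L ^ a := by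
  rw [A0_int_BB hν hl0.le (fun i _ => ub_cont α l0 J i) (fun i _ => ub_dep α l0 J i) J le_rfl]
  have h1 : ∏ i ∈ Finset.range J, ∫ x, ub α l0 J i x ∂ν ≤
      ∏ i ∈ Finset.range J, Real.exp (a * Sp (tj l0 i) (tj l0 (i + 1)) + C * EE s (tj l0 i) (tj l0 (i + 1)) +
        C * Real.exp (-kap 40 J i / 20)) := by
    refine Finset.prod_le_prod (fun i _ => ?_) fun i hi => h i (Finset.mem_range.mp hi)
    exact integral_nonneg fun x => uq_nonneg _ _ _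
  refine h1.trans ?_
  rw [← Real.exp_sum, Finset.sum_add_distrib, Finset.sum_add_distrib, ← Finset.mul_sum, ← Finset.mul_sum,
    ← Finset.mul_sum, Sp_sum hl0.le, EE_sum hl0.le]
  have h2 : ∑ i ∈ Finset.range J, Real.exp (-kap 40 J i / 20) ≤ 2 := by
    refine (A0_sum le_rfl J le_rfl).trans ?_
    have : Real.exp (-40 / 20) ≤ 1 := Real.exp_le_one_iff.mpr (by norm_num)
    linarith
  have hLp : 0 < L := by linarith
  have h3 : L ^ a = Real.exp (a * Real.log L) := by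
    rw [Real.rpow_def_of_pos hLp, mul_comm]
  rw [h3, ← Real.exp_add]
  refine Real.exp_le_exp.mpr ?_
  have h4 : |Sp (tj l0 0) (tj l0 J) - Real.log L| ≤ C3 + c1 := by
    have e : Sp (tj l0 0) (tj l0 J) - Real.log L =
        (Sp (tj l0 0) (tj l0 J) - Real.log (L / l0)) - Real.log l0 := by
      rw [Real.log_div hLp.ne' hl0.ne']
      ring
    rw [e]
    exact (abs_sub _ _).trans (add_le_add hSp hc1)
  have h5 : a * (Sp (tj l0 0) (tj l0 J) - Real.log L) ≤ 5 * (C3 + c1) := by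
    refine (le_abs_self _).trans ?_
    rw [abs_mul]
    exact mul_le_mul ha h4 (abs_nonneg _) (by norm_num)
  have h6 : C * EE s (tj l0 0) (tj l0 J) ≤ C * C' := mul_le_mul_of_nonneg_left hEE hC
  have h7 := mul_le_mul_of_nonneg_left h2 hC
  nlinarith

theorem BB_mean {α : ℝ} (hα : |α| ≤ 1) : ∃ C : ℝ, 1 ≤ C ∧ ∀ (l0 L : ℝ) (s : ℂ) (J : ℕ), Real.log 2 / 2 ≤ l0 →
    l0 < Real.log 2 → 1 ≤ L → l0 * 2 ^ J = L → Adm s L →
    ∫ x, BB (ub α l0 J) J x ∂(nu s L) ≤ C * L ^ (2 * α + α ^ 2) ∧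
    ∫ x, BB (ub α l0 J) J x ∂(LibFG78.nu4 s L) ≤ C * L ^ (4 * α + α ^ 2) := by
  obtain ⟨C, hC, h1⟩ := ub_mean hα
  obtain ⟨C', hC', h2⟩ := EE_le
  obtain ⟨C3, hC3, h3⟩ := Sp_near
  set c1 : ℝ := |Real.log (Real.log 2 / 2)| + |Real.log (Real.log 2)| with hc1
  have hc1p : 0 ≤ c1 := by positivity
  refine ⟨Real.exp (5 * (C3 + c1) + C * C' + 2 * C), Real.one_le_exp (by positivity), ?_⟩
  intro l0 L s J hl0 hl1 hL1 hL hs
  have hlog2 : 0 < Real.log 2 := Real.log_pos (by norm_num)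
  have hl0p : 0 < l0 := by linarith
  have ht0 : tj l0 0 = Real.exp l0 := by unfold tj; simp
  have htJ : tj l0 J = Real.exp L := by unfold tj; rw [hL]
  have hs2 : Real.sqrt 2 ≤ tj l0 0 := by
    have e1 : Real.sqrt 2 = Real.exp (Real.log 2 / 2) := by
      rw [← Real.log_sqrt (by norm_num : (0 : ℝ) ≤ 2), Real.exp_log (Real.sqrt_pos.mpr (by norm_num))]
    rw [e1, ht0]
    exact Real.exp_le_exp.mpr hl0
  have h1u : 1 ≤ tj l0 0 := by
    refine le_trans ?_ hs2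
    rw [Real.one_le_sqrt]
    norm_num
  have hEE : EE s (tj l0 0) (tj l0 J) ≤ C' := h2 s L _ _ hs h1u htJ.le
  have hSp := h3 (tj l0 0) (tj l0 J) hs2 (PP16_tj_mono hl0p.le (Nat.zero_le J))
  rw [htJ, Real.log_exp, ht0, Real.log_exp] at hSp
  rw [← ht0, ← htJ] at hSp
  have hlc : |Real.log l0| ≤ c1 := by
    have a1 : Real.log (Real.log 2 / 2) ≤ Real.log l0 := Real.log_le_log (by positivity) hl0
    have a2 : Real.log l0 ≤ Real.log (Real.log 2) := Real.log_le_log hl0p hl1.le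
    have b1 := neg_abs_le (Real.log (Real.log 2 / 2))
    have b2 := le_abs_self (Real.log (Real.log 2))
    have b3 := abs_nonneg (Real.log (Real.log 2 / 2))
    have b4 := abs_nonneg (Real.log (Real.log 2))
    rw [abs_le]
    constructor <;> linarith
  obtain ⟨hα1, hα2⟩ := abs_le.mp hα
  have ha1 : |2 * α + α ^ 2| ≤ 5 := by
    rw [abs_le]
    constructor <;> nlinarith
  have ha2 : |4 * α + α ^ 2| ≤ 5 := by
    rw [abs_le]
    constructor <;> nlinarith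
  exact ⟨PP16_mean (isProd_nu hs) hl0p hL hL1 ha1 hC hEE hSp hlc fun i hi =>
      (h1 l0 L s J i hl0 hi hL.le hs).1,
    PP16_mean (LibFG78.isProd_nu hs) hl0p hL hL1 ha2 hC hEE hSp hlc fun i hi =>
      (h1 l0 L s J i hl0 hi hL.le hs).2⟩

end Pool.Agent.LibST15
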