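import Mathlib
import Pool.Agent.LibST15.PDefs

/-! # Row PP17: polynomials -/

set_option autoImplicit false

namespace Pool.Agent.LibST15

open MeasureTheory Filter Topology Pool.Agent.LibMM99 Pool.Agent.LibTG78
open scoped ComplexConjugate

private theorem PP17_ch_one (x : Om) : ch x 1 = 1 := by
  unfold ch
  simp

theorem QQ_poly {u v : ℝ} (hv : 2 ≤ v) : IsPoly (2 * Real.log v) (QQ u v) := by
  have hv0 : 0 < v := by linarith
  have hexp : Real.exp (2 * Real.log v) = v ^ 2 := by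
    rw [mul_comm, Real.exp_mul, Real.exp_log hv0]
    exact_mod_cast Real.rpow_natCast v 2
  have hvsq : v ≤ v ^ 2 := by nlinarith
  have hmem : ∀ p ∈ prm u v, 1 ≤ p ∧ (p : ℝ) ≤ v := by
    intro p hp
    unfold prm at hp
    rw [Finset.mem_filter, Finset.mem_Icc] at hp
    exact ⟨hp.1.1, (Nat.le_floor_iff hv0.le).1 hp.1.2⟩
  have hcard : ((prm u v).card : ℝ) ≤ v := by
    have h1 : (prm u v).card ≤ ⌊v⌋₊ := by
      unfold prm
      refine (Finset.card_filter_le _ _).trans ?_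
      simp
    calc ((prm u v).card : ℝ) ≤ (⌊v⌋₊ : ℝ) := by exact_mod_cast h1
      _ ≤ v := Nat.floor_le hv0.le
  have hinj : Set.InjOn (fun p : ℕ => (p, 1)) (prm u v : Set ℕ) := by
    intro a _ b _ hab
    exact congrArg Prod.fst hab
  refine ⟨(prm u v).image (fun p => (p, 1)), fun q => (((Real.sqrt q.1)⁻¹ : ℝ) : ℂ), ?_, ?_, ?_⟩
  · intro q hq
    rw [Finset.mem_image] at hq
    obtain ⟨p, hp, rfl⟩ := hq
    obtain ⟨h1, h2⟩ := hmem p hp
    rw [hexp]
    refine ⟨h1, le_rfl, h2.trans hvsq, ?_⟩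
    simp only [Nat.cast_one]
    nlinarith
  · rw [Finset.sum_image hinj, hexp]
    calc ∑ p ∈ prm u v, ‖(((Real.sqrt (p : ℝ))⁻¹ : ℝ) : ℂ)‖ ≤ ∑ _p ∈ prm u v, (1 : ℝ) := by
          apply Finset.sum_le_sum
          intro p hp
          obtain ⟨h1, _⟩ := hmem p hp
          rw [Complex.norm_real, Real.norm_eq_abs, abs_of_nonneg (by positivity)]
          apply inv_le_one_of_one_le₀
          rw [Real.one_le_sqrt]
          exact_mod_cast h1
      _ = ((prm u v).card : ℝ) := by simp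
      _ ≤ v ^ 2 := hcard.trans hvsq
  · intro x
    rw [Finset.sum_image hinj]
    unfold QQ DS
    apply Finset.sum_congr rfl
    intro p _
    show (1 : ℂ) * (((Real.sqrt (p : ℝ))⁻¹ : ℝ) : ℂ) * ch x p =
      (((Real.sqrt (p : ℝ))⁻¹ : ℝ) : ℂ) * ch x p * (starRingEnd ℂ) (ch x 1)
    rw [PP17_ch_one, map_one, mul_one, one_mul]

theorem EM_poly {a : ℝ} (ha : 1 ≤ a) {Φ : Om → ℂ} (h : IsPoly a Φ) {α : ℝ} (hα : |α| ≤ 1) {N : ℕ} (hN : 1 ≤ N) :
    IsPoly (N * (a + 1)) (fun x => EM N ((α : ℂ) * Φ x)) := by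
  have hterm : ∀ n ∈ Finset.range N,
      IsPoly (N * a) (fun x => ((α : ℂ) * Φ x) ^ n / (n.factorial : ℂ)) := by
    intro n hn
    have hn' : n < N := Finset.mem_range.1 hn
    have h1 := Pool.Agent.LibMM99.IsPoly.pow h n
    have h2 : IsPoly 0 (fun _ : Om => (α : ℂ) ^ n / (n.factorial : ℂ)) := by
      apply Pool.Agent.LibMM99.IsPoly.const _ le_rfl
      rw [Real.exp_zero, norm_div, norm_pow, Complex.norm_real, Real.norm_eq_abs,
        Complex.norm_natCast]
      have hf : (1 : ℝ) ≤ (n.factorial : ℝ) := by exact_mod_cast Nat.one_le_iff_ne_zero.2 (Nat.factorial_ne_zero n)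
      rw [div_le_one (by linarith)]
      exact (pow_le_one₀ (abs_nonneg _) hα).trans hf
    have h3 := Pool.Agent.LibMM99.IsPoly.mul h2 h1
    have h4 : IsPoly (N * a) (fun x => (α : ℂ) ^ n / (n.factorial : ℂ) * Φ x ^ n) := by
      refine Pool.Agent.LibMM99.IsPoly.mono h3 ?_
      rw [zero_add]
      have : (n : ℝ) ≤ N := by exact_mod_cast hn'.le
      exact mul_le_mul_of_nonneg_right this (by linarith)
    have h5 : (fun x => ((α : ℂ) * Φ x) ^ n / (n.factorial : ℂ)) =
        fun x => (α : ℂ) ^ n / (n.factorial : ℂ) * Φ x ^ n := by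
      funext x
      rw [mul_pow]
      ring
    rw [h5]
    exact h4
  have hs := Pool.Agent.LibMM99.IsPoly.sum (Finset.range N) (fun n x => ((α : ℂ) * Φ x) ^ n / (n.factorial : ℂ)) hterm
  rw [Finset.card_range] at hs
  have e : (N : ℝ) * a + N = N * (a + 1) := by ring
  rw [e] at hs
  exact hs

end Pool.Agent.LibST15
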