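import Mathlib
import Pool.Agent.LibST15.PDefs
import Pool.Agent.LibST15.PP17

/-! # Row PP18: the polynomial at one scale -/

set_option autoImplicit false

namespace Pool.Agent.LibST15

open MeasureTheory Filter Topology Pool.Agent.LibMM99 Pool.Agent.LibTG78
open scoped ComplexConjugate

theorem PP18_uq {a : ℝ} (ha : 1 ≤ a) {Φ : Om → ℂ} (h : IsPoly a Φ) {α : ℝ} (hα : |α| ≤ 1) {N : ℕ}
    (hN : 10 ≤ N) : IsPolyR (2 * (N * (a + 1)) + 1) (fun x => uq α N (Φ x)) := by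
  have hN1 : 1 ≤ N := by omega
  have hN0 : (10 : ℝ) ≤ N := by exact_mod_cast hN
  have h1 : IsPolyR (2 * (N * (a + 1))) (fun x => ‖EM N ((α : ℂ) * Φ x)‖ ^ 2) :=
    IsPoly.normSq (EM_poly ha h hα hN1)
  have h2 : IsPolyR (2 * (N * a)) (fun x => ‖Φ x ^ N‖ ^ 2) := IsPoly.normSq (IsPoly.pow h N)
  have h3 : IsPolyR 0 (fun _ : Om => ((10 : ℝ) / N) ^ (2 * N)) := by
    refine IsPolyR.const _ le_rfl ?_
    have h4 : (10 : ℝ) / N ≤ 1 := by
      rw [div_le_one (by linarith)]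
      exact hN0
    have h5 : (0 : ℝ) ≤ (10 : ℝ) / N := by positivity
    rw [abs_of_nonneg (pow_nonneg h5 _), Real.exp_zero]
    exact pow_le_one₀ h5 h4
  have h4 := IsPolyR.mul h3 h2
  have h5 : IsPolyR (2 * (N * (a + 1))) (fun x => ((10 : ℝ) / N) ^ (2 * N) * ‖Φ x ^ N‖ ^ 2) := by
    refine IsPolyR.mono h4 ?_
    nlinarith
  have h6 := IsPolyR.add h1 h5
  have h7 : (fun x => uq α N (Φ x)) =
      fun x => ‖EM N ((α : ℂ) * Φ x)‖ ^ 2 + ((10 : ℝ) / N) ^ (2 * N) * ‖Φ x ^ N‖ ^ 2 := by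
    funext x
    unfold uq
    rw [norm_pow, ← pow_mul, mul_comm N 2, ← mul_pow]
    congr 2
    ring
  rw [h7]
  exact h6

theorem ub_poly : ∃ C : ℝ, 1 ≤ C ∧ ∀ (α l0 : ℝ) (J i : ℕ), |α| ≤ 1 → Real.log 2 / 2 ≤ l0 → i < J →
    IsPolyR (C * A0_x l0 40 J i) (ub α l0 J i) := by
  refine ⟨20, by norm_num, fun α l0 J i hα hl0 hi => ?_⟩
  have hlog : (0.69 : ℝ) < Real.log 2 := by linarith [Real.log_two_gt_d9]
  have hk : (40 : ℝ) ≤ kap 40 J i := A0_kap_ge (by norm_num) J i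
  have hN1 : kap 40 J i ≤ (Nk J i : ℝ) := Nat.le_ceil _
  have hN2 : (Nk J i : ℝ) < kap 40 J i + 1 := Nat.ceil_lt_add_one (by linarith)
  have hN3 : 10 ≤ Nk J i := by
    have h : (10 : ℝ) ≤ (Nk J i : ℝ) := by linarith
    exact_mod_cast h
  have hp : (2 : ℝ) ≤ 2 ^ (i + 1) := by
    have h := pow_le_pow_right₀ (by norm_num : (1 : ℝ) ≤ 2) (by omega : 1 ≤ i + 1)
    simpa using h
  have hv : Real.log 2 ≤ l0 * 2 ^ (i + 1) := by nlinarith
  have hv2 : (2 : ℝ) ≤ tj l0 (i + 1) := by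
    unfold tj
    rw [← Real.log_le_iff_le_exp (by norm_num)]
    exact hv
  have hQ : IsPoly (2 * (l0 * 2 ^ (i + 1))) (QQ (tj l0 i) (tj l0 (i + 1))) := by
    have h := QQ_poly (u := tj l0 i) hv2
    rw [log_tj] at h
    exact h
  have h1 := PP18_uq (by linarith) hQ hα hN3
  refine IsPolyR.mono h1 ?_
  unfold A0_x
  set y := l0 * 2 ^ (i + 1) with hy
  set k := kap 40 J i with hkk
  set n : ℝ := (Nk J i : ℝ) with hn
  have h2 : n * (2 * y + 1) ≤ (k + 1) * (2 * y + 1) := mul_le_mul_of_nonneg_right hN2.le (by linarith)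
  have h3 : (0 : ℝ) ≤ (k - 40) * (y - 0.69) := mul_nonneg (by linarith) (by linarith)
  nlinarith

end Pool.Agent.LibST15
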