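import Mathlib
import Pool.Agent.LibST15.PDefs
import Pool.Agent.LibST15.PP04
import Pool.Agent.LibST15.PP16
import Pool.Agent.LibST15.PP18
import Pool.Agent.LibST15.PP14

/-! # Row PP19: the pair -/

set_option autoImplicit false

namespace Pool.Agent.LibST15

open MeasureTheory Filter Topology Pool.Agent.LibMM99 Pool.Agent.LibTG78
open scoped ComplexConjugate

theorem PP19_nonneg (α l0 : ℝ) (J j : ℕ) (x : Om) : 0 ≤ BB (ub α l0 J) j x :=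
  Finset.prod_nonneg fun _ _ => uq_nonneg _ _ _

theorem PP19_dep (α : ℝ) {l0 : ℝ} (h0 : 0 ≤ l0) (J : ℕ) :
    DependsOn (BB (ub α l0 J) J) (coo 1 (Real.exp (l0 * 2 ^ J))) := by
  intro x y h
  unfold BB
  refine Finset.prod_congr rfl fun i hi => ?_
  have hi' := Finset.mem_range.1 hi
  refine ub_dep α l0 J i (fun p hp => h p ?_)
  obtain ⟨h1, h2⟩ := hp
  refine ⟨?_, h2.trans ?_⟩
  · refine lt_of_le_of_lt ?_ h1
    unfold tj
    exact Real.one_le_exp (by positivity)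
  · unfold tj
    refine Real.exp_le_exp.2 (mul_le_mul_of_nonneg_left ?_ h0)
    exact pow_le_pow_right₀ (by norm_num) (by omega)

theorem PP19_poly {C α l0 : ℝ} (h0 : 0 ≤ l0) (hC : 0 ≤ C) {J : ℕ}
    (h : ∀ i < J, IsPolyR (C * A0_x l0 40 J i) (ub α l0 J i)) :
    IsPolyR (160 * C * (l0 * 2 ^ J)) (BB (ub α l0 J) J) := by
  refine (A0_BB J (ub α l0 J) h J le_rfl).mono ?_
  rw [← Finset.mul_sum]
  have h1 := A0_xsum h0 (by norm_num : (0 : ℝ) ≤ 40) J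
  calc C * ∑ i ∈ Finset.range J, A0_x l0 40 J i ≤ C * (4 * 40 * (l0 * 2 ^ J)) :=
        mul_le_mul_of_nonneg_left h1 hC
    _ = 160 * C * (l0 * 2 ^ J) := by ring

theorem pair {b : ℝ} (hb : 0 ≤ b) (hb2 : b ≤ 2) : ∃ C c : ℝ, 1 ≤ C ∧ 0 < c ∧ ∀ L : ℝ, 1 ≤ L → ∃ U V : Om → ℝ,
    (∀ x, 0 ≤ U x) ∧ (∀ x, 0 ≤ V x) ∧ (∀ x, c ≤ U x ^ (1 - b / 2) * V x ^ (b / 2)) ∧
    IsPolyR (C * L) U ∧ IsPolyR (C * L) V ∧ DependsOn U (coo 1 (Real.exp L)) ∧ DependsOn V (coo 1 (Real.exp L)) ∧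
    (∀ s : ℂ, Adm s L → ∫ x, U x ∂(nu s L) ≤ C * L ^ (gam b)) ∧
    (∀ s : ℂ, Adm s L → ∫ x, V x ∂(LibFG78.nu4 s L) ≤ C * L ^ (gam b - 3)) := by
  have hα : |b / 2| ≤ 1 := by rw [abs_le]; constructor <;> linarith
  have hα' : |b / 2 - 1| ≤ 1 := by rw [abs_le]; constructor <;> linarith
  obtain ⟨C1, hC1, h1⟩ := BB_mean hα
  obtain ⟨C2, hC2, h2⟩ := BB_mean hα'
  obtain ⟨C3, hC3, h3⟩ := ub_poly
  have hge : (1 : ℝ) ≤ C1 + C2 + 160 * C3 := by linarith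
  refine ⟨C1 + C2 + 160 * C3, Real.exp (-2), hge, Real.exp_pos _, ?_⟩
  intro L hL
  have hlog : Real.log 2 / 2 ≤ L := by
    have := Real.log_two_lt_d9
    linarith
  obtain ⟨l0, J, hl1, hl2, hJ⟩ := exists_scales hlog
  have h0 : 0 ≤ l0 := by
    have := Real.log_nonneg (by norm_num : (1 : ℝ) ≤ 2)
    linarith
  have e1 : 2 * (b / 2) + (b / 2) ^ 2 = gam b := by unfold gam; ring
  have e2 : 4 * (b / 2 - 1) + (b / 2 - 1) ^ 2 = gam b - 3 := by unfold gam; ring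
  have hL0 : (0 : ℝ) < L := by linarith
  have hp1 : 0 ≤ L ^ (gam b) := Real.rpow_nonneg hL0.le _
  have hp2 : 0 ≤ L ^ (gam b - 3) := Real.rpow_nonneg hL0.le _
  refine ⟨BB (ub (b / 2) l0 J) J, BB (ub (b / 2 - 1) l0 J) J, PP19_nonneg _ _ _ _, PP19_nonneg _ _ _ _,
    fun x => pair_prod hb hb2 l0 J x, ?_, ?_, ?_, ?_, ?_, ?_⟩
  · refine (PP19_poly h0 (by linarith) (fun i hi => h3 _ _ _ _ hα hl1 hi)).mono ?_
    rw [hJ]
    nlinarith
  · refine (PP19_poly h0 (by linarith) (fun i hi => h3 _ _ _ _ hα' hl1 hi)).mono ?_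
    rw [hJ]
    nlinarith
  · rw [← hJ]; exact PP19_dep _ h0 J
  · rw [← hJ]; exact PP19_dep _ h0 J
  · intro s hs
    have h4 := (h1 l0 L s J hl1 hl2 hL hJ hs).1
    rw [e1] at h4
    refine h4.trans (mul_le_mul_of_nonneg_right (by linarith) hp1)
  · intro s hs
    have h4 := (h2 l0 L s J hl1 hl2 hL hJ hs).2
    rw [e2] at h4
    refine h4.trans (mul_le_mul_of_nonneg_right (by linarith) hp2)

end Pool.Agent.LibST15
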