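import Mathlib
import Pool.Agent.LibFG78.Defs

/-! # Sharp upper bounds for the moments of zeta between 2 and 4: the two Dirichlet polynomials

The statement of the model part.  `U` is a substitute for the power `b` and `V` for the power `b - 2` of the
absolute value of the Euler product over the primes up to `e ^ L`, `L = (log T) / K1`. -/

set_option autoImplicit false

namespace Pool.Agent.LibST15

open MeasureTheory Filter Topology Pool.Agent.LibMM99 Pool.Agent.LibTG78 Pool.Agent.LibFG78
open scoped ComplexConjugate

/-- the pair of Dirichlet polynomials at height `T`: lengths at most `T ^ η`, mean values at most `C` times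
the right order under all admissible tilted measures -/
structure IsPair (b η C c T L : ℝ) (U V : Om → ℝ) : Prop where
  one_le : 1 ≤ L
  le_log : L ≤ Real.log T
  U_nonneg : ∀ x, 0 ≤ U x
  V_nonneg : ∀ x, 0 ≤ V x
  U_poly : IsPolyR (η * Real.log T) U
  V_poly : IsPolyR (η * Real.log T) V
  U_dep : DependsOn U (coo 1 (Real.exp L))
  V_dep : DependsOn V (coo 1 (Real.exp L))
  ge : ∀ x, c ≤ U x ^ (1 - b / 2) * V x ^ (b / 2)
  U_le : ∀ s : ℂ, Adm s L → ∫ x, U x ∂(nu s L) ≤ C * Real.log T ^ gam b
  V_le : ∀ s : ℂ, Adm s L → ∫ x, V x ∂(nu4 s L) ≤ C * Real.log T ^ (gam b - 3)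

end Pool.Agent.LibST15
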