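import Mathlib
import Pool.Agent.LibST15.PairStat
import Pool.Agent.LibST15.PP19

/-! # Sharp upper bounds for the moments of zeta between 2 and 4: existence of the pair -/

set_option autoImplicit false

namespace Pool.Agent.LibST15

open MeasureTheory Filter Topology Pool.Agent.LibMM99 Pool.Agent.LibTG78 Pool.Agent.LibFG78
open scoped ComplexConjugate

/-- P (helper47) -/
theorem exists_pair {b : ℝ} (hb : 0 < b) (hb2 : b ≤ 2) {η : ℝ} (hη : 0 < η) :
    ∃ C c T0 : ℝ, 0 < C ∧ 0 < c ∧ 3 ≤ T0 ∧ ∀ T : ℝ, T0 ≤ T → ∃ (L : ℝ) (U V : Om → ℝ),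
      IsPair b η C c T L U V := by
  obtain ⟨C, c, hC, hc, h⟩ := pair hb.le hb2
  have hC0 : (0 : ℝ) < C := by linarith
  set κ : ℝ := min 1 (η / C) with hκ
  have hκ0 : 0 < κ := lt_min one_pos (div_pos hη hC0)
  have hκ1 : κ ≤ 1 := min_le_left _ _
  have hκη : C * κ ≤ η := by
    have h1 : κ ≤ η / C := min_le_right _ _
    calc C * κ ≤ C * (η / C) := mul_le_mul_of_nonneg_left h1 hC0.le
      _ = η := by field_simp
  have hp1 : 0 < κ ^ (gam b) := Real.rpow_pos_of_pos hκ0 _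
  have hp2 : 0 < κ ^ (gam b - 3) := Real.rpow_pos_of_pos hκ0 _
  refine ⟨C * (κ ^ (gam b) + κ ^ (gam b - 3)), c, max 3 (Real.exp (1 / κ)), by positivity, hc, le_max_left _ _, ?_⟩
  intro T hT
  have hT3 : 3 ≤ T := (le_max_left _ _).trans hT
  have hT0 : 0 < T := by linarith
  have hlog : 1 / κ ≤ Real.log T := by
    rw [← Real.log_exp (1 / κ)]
    exact Real.log_le_log (Real.exp_pos _) ((le_max_right _ _).trans hT)
  have hlogp : 0 < Real.log T := lt_of_lt_of_le (by positivity) hlog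
  have hL1 : 1 ≤ κ * Real.log T := by
    have h1 := mul_le_mul_of_nonneg_left hlog hκ0.le
    rwa [mul_one_div_cancel hκ0.ne'] at h1
  obtain ⟨U, V, hU, hV, hge, hUp, hVp, hUd, hVd, hUm, hVm⟩ := h (κ * Real.log T) hL1
  have hlen : C * (κ * Real.log T) ≤ η * Real.log T := by
    have h1 := mul_le_mul_of_nonneg_right hκη hlogp.le
    linarith
  have hle : ∀ g : ℝ, C * (κ * Real.log T) ^ g = C * κ ^ g * Real.log T ^ g := by
    intro g
    rw [Real.mul_rpow hκ0.le hlogp.le]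
    ring
  refine ⟨κ * Real.log T, U, V, ⟨hL1, ?_, hU, hV, hUp.mono hlen, hVp.mono hlen, hUd, hVd, hge, ?_, ?_⟩⟩
  · nlinarith
  · intro s hs
    refine (hUm s hs).trans ?_
    rw [hle]
    refine mul_le_mul_of_nonneg_right ?_ (Real.rpow_nonneg hlogp.le _)
    nlinarith
  · intro s hs
    refine (hVm s hs).trans ?_
    rw [hle]
    refine mul_le_mul_of_nonneg_right ?_ (Real.rpow_nonneg hlogp.le _)
    nlinarith

end Pool.Agent.LibST15
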