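import Mathlib
import Pool.Agent.LibTG78.D5a

/-! # Upper bound for the second moment twisted by a nonnegative Dirichlet polynomial -/

set_option autoImplicit false

namespace Pool.Agent.LibST15

open MeasureTheory Filter Topology Pool.Agent.LibMM99 Pool.Agent.LibTG78
open scoped ComplexConjugate

/-- T2 -/
theorem second_le : ∃ C δ T0 : ℝ, 0 < C ∧ 0 < δ ∧ 3 ≤ T0 ∧ ∀ (a L A T : ℝ) (U : Om → ℝ), 1 ≤ L →
    L ≤ Real.log T → T0 ≤ T → a ≤ δ * Real.log T → IsPolyR a U → DependsOn U (coo 1 (Real.exp L)) →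
    (∀ x, 0 ≤ U x) → (∀ s : ℂ, Adm s L → ∫ x, U x ∂(nu s L) ≤ A) →
    (1 / T) * (∫ t in (0 : ℝ)..T, ‖riemannZeta (1 / 2 + t * Complex.I)‖ ^ 2 * U (xt t)) ≤
      C * Real.log T * A + C := by
  obtain ⟨C, δ, T0, hC, hδ, hT0, h⟩ := D5_poly
  refine ⟨C + 1, δ, max 3 T0, by positivity, hδ, le_max_left _ _, ?_⟩
  intro a L A T U hL hLT hT ha hU hUd hU0 hA
  have hT3 : 3 ≤ T := (le_max_left _ _).trans hT
  have hTp : 0 < T := by linarith
  have hlogp : 1 ≤ Real.log T := hL.trans hLT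
  have hA' : ∀ s : ℂ, Adm s L → ∫ x, |U x| ∂(nu s L) ≤ A := fun s hs => by
    have e : (fun x => |U x|) = U := funext fun x => abs_of_nonneg (hU0 x)
    rw [e]
    exact hA s hs
  have hadm : Adm 0 L := ⟨hL, by rw [norm_zero]; positivity⟩
  have hA0 : 0 ≤ A := (integral_nonneg fun x => hU0 x).trans (hA 0 hadm)
  have h1 := h a L A T U hL ((le_max_right _ _).trans hT) ha hU hUd hA'
  have h2 := (abs_le.1 h1).2
  have h3 : T ^ (-(3 * δ)) ≤ 1 := Real.rpow_le_one_of_one_le_of_nonpos (by linarith) (by linarith)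
  have h4 : Real.log T * ∫ x, U x ∂(nu 0 L) ≤ Real.log T * A := mul_le_mul_of_nonneg_left (hA 0 hadm) (by linarith)
  have h5 : C * L * A ≤ C * Real.log T * A := by gcongr
  have h6 : C * T ^ (-(3 * δ)) ≤ C := by
    have := mul_le_mul_of_nonneg_left h3 hC.le
    linarith
  nlinarith

end Pool.Agent.LibST15
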