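import Mathlib
import Pool.Agent.LibST15.Pair
import Pool.Agent.LibST15.Second
import Pool.Agent.LibST15.Fourth

/-! # Sharp upper bounds for the moments of zeta between 2 and 4 -/

set_option autoImplicit false

namespace Pool.Agent.LibST15

open MeasureTheory Filter Topology Pool.Agent.LibMM99 Pool.Agent.LibTG78 Pool.Agent.LibFG78
open scoped ComplexConjugate

/-- the pointwise inequality -/
theorem Upper_point {b c z U V : ℝ} (hb : 0 < b) (hb2 : b ≤ 2) (hz : 0 ≤ z) (hU : 0 ≤ U) (hV : 0 ≤ V)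
    (h : c ≤ U ^ (1 - b / 2) * V ^ (b / 2)) : c * z ^ (b + 2) ≤ z ^ 2 * U + z ^ 4 * V := by
  have h1 : 0 ≤ z ^ 2 * U := by positivity
  have h2 : 0 ≤ z ^ 4 * V := by positivity
  have h3 := Real.geom_mean_le_arith_mean2_weighted (w₁ := 1 - b / 2) (w₂ := b / 2) (by linarith) (by linarith) h1 h2
    (by ring)
  have h4 : (z ^ 2 * U) ^ (1 - b / 2) * (z ^ 4 * V) ^ (b / 2) =
      U ^ (1 - b / 2) * V ^ (b / 2) * z ^ (b + 2) := by
    rw [Real.mul_rpow (by positivity) hU, Real.mul_rpow (by positivity) hV]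
    have e1 : (z ^ 2) ^ (1 - b / 2) = z ^ (2 - b) := by
      rw [← Real.rpow_natCast, ← Real.rpow_mul hz]
      congr 1
      push_cast
      ring
    have e2 : (z ^ 4) ^ (b / 2) = z ^ (2 * b) := by
      rw [← Real.rpow_natCast, ← Real.rpow_mul hz]
      congr 1
      push_cast
      ring
    have e3 : z ^ (b + 2) = z ^ (2 - b) * z ^ (2 * b) := by
      rw [← Real.rpow_add_of_nonneg hz (by linarith) (by linarith)]
      congr 1
      ring
    rw [e1, e2, e3]
    ring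
  have h5 : c * z ^ (b + 2) ≤ U ^ (1 - b / 2) * V ^ (b / 2) * z ^ (b + 2) :=
    mul_le_mul_of_nonneg_right h (Real.rpow_nonneg hz _)
  rw [h4] at h3
  have h6 : (1 - b / 2) * (z ^ 2 * U) ≤ 1 * (z ^ 2 * U) := mul_le_mul_of_nonneg_right (by linarith) h1
  have h7 : (b / 2) * (z ^ 4 * V) ≤ 1 * (z ^ 4 * V) := mul_le_mul_of_nonneg_right (by linarith) h2
  linarith

/-- T1 -/
theorem upper_k {b : ℝ} (hb : 0 < b) (hb2 : b ≤ 2) : ∃ C T0 : ℝ, 0 < C ∧ 3 ≤ T0 ∧ ∀ T : ℝ, T0 ≤ T →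
    (1 / T) * (∫ t in (0 : ℝ)..T, ‖riemannZeta (1 / 2 + t * Complex.I)‖ ^ (b + 2)) ≤
      C * Real.log T ^ (gam b + 1) := by
  obtain ⟨C2, δ2, T2, hC2, hδ2, hT2, h2⟩ := second_le
  obtain ⟨C4, δ4, T4, hC4, hδ4, hT4, h4⟩ := fourth_le
  obtain ⟨C, c, T0, hC, hc, hT0, h⟩ := exists_pair hb hb2 (lt_min hδ2 hδ4)
  refine ⟨c⁻¹ * (C2 * C + C2 + C4 * C + C4), max T0 (max T2 T4), by positivity, hT0.trans (le_max_left _ _), ?_⟩
  intro T hT
  have hT0' : T0 ≤ T := (le_max_left _ _).trans hT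
  have hT2' : T2 ≤ T := ((le_max_left _ _).trans (le_max_right _ _)).trans hT
  have hT4' : T4 ≤ T := ((le_max_right _ _).trans (le_max_right _ _)).trans hT
  obtain ⟨L, U, V, hp⟩ := h T hT0'
  have hTp : 0 < T := by linarith
  have hl1 : 1 ≤ Real.log T := hp.one_le.trans hp.le_log
  have hl0 : 0 < Real.log T := by linarith
  have hg : 0 ≤ gam b := by unfold gam; positivity
  have e2 := h2 _ L _ T U hp.one_le hp.le_log hT2'
    (mul_le_mul_of_nonneg_right (min_le_left δ2 δ4) hl0.le) hp.U_poly hp.U_dep hp.U_nonneg hp.U_le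
  have e4 := h4 _ L _ T V hp.one_le hp.le_log hT4'
    (mul_le_mul_of_nonneg_right (min_le_right δ2 δ4) hl0.le) hp.V_poly hp.V_dep hp.V_nonneg hp.V_le
  set X : ℝ := Real.log T ^ (gam b + 1) with hX
  have hX1 : 1 ≤ X := Real.one_le_rpow hl1 (by linarith)
  have f2 : C2 * Real.log T * (C * Real.log T ^ gam b) + C2 ≤ (C2 * C + C2) * X := by
    have : Real.log T * Real.log T ^ gam b = X := by
      rw [hX, Real.rpow_add hl0, Real.rpow_one]; ring
    calc C2 * Real.log T * (C * Real.log T ^ gam b) + C2 = C2 * C * (Real.log T * Real.log T ^ gam b) + C2 := by ring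
      _ ≤ (C2 * C + C2) * X := by rw [this]; nlinarith
  have f4 : C4 * Real.log T ^ 4 * (C * Real.log T ^ (gam b - 3)) + C4 ≤ (C4 * C + C4) * X := by
    have : Real.log T ^ 4 * Real.log T ^ (gam b - 3) = X := by
      rw [hX, ← Real.rpow_natCast, ← Real.rpow_add hl0]
      congr 1
      push_cast
      ring
    calc C4 * Real.log T ^ 4 * (C * Real.log T ^ (gam b - 3)) + C4
        = C4 * C * (Real.log T ^ 4 * Real.log T ^ (gam b - 3)) + C4 := by ring
      _ ≤ (C4 * C + C4) * X := by rw [this]; nlinarith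
  have hUc : Continuous U := hp.U_poly.continuous
  have hVc : Continuous V := hp.V_poly.continuous
  have c2 : Continuous fun t : ℝ => ‖riemannZeta (1 / 2 + t * Complex.I)‖ ^ 2 * U (xt t) :=
    (D5_zeta_cont.norm.pow 2).mul (hUc.comp continuous_xt)
  have c4 : Continuous fun t : ℝ => ‖riemannZeta (1 / 2 + t * Complex.I)‖ ^ 4 * V (xt t) :=
    (D5_zeta_cont.norm.pow 4).mul (hVc.comp continuous_xt)
  have cb : Continuous fun t : ℝ => c * ‖riemannZeta (1 / 2 + t * Complex.I)‖ ^ (b + 2) :=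
    continuous_const.mul (D5_zeta_cont.norm.rpow_const fun _ => Or.inr (by linarith))
  have key : c * (∫ t in (0 : ℝ)..T, ‖riemannZeta (1 / 2 + t * Complex.I)‖ ^ (b + 2)) ≤
      (∫ t in (0 : ℝ)..T, ‖riemannZeta (1 / 2 + t * Complex.I)‖ ^ 2 * U (xt t)) +
      ∫ t in (0 : ℝ)..T, ‖riemannZeta (1 / 2 + t * Complex.I)‖ ^ 4 * V (xt t) := by
    rw [← intervalIntegral.integral_const_mul,
      ← intervalIntegral.integral_add (c2.intervalIntegrable _ _) (c4.intervalIntegrable _ _)]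
    refine intervalIntegral.integral_mono_on hTp.le (cb.intervalIntegrable _ _)
      ((c2.add c4).intervalIntegrable _ _) fun t _ => ?_
    exact Upper_point hb hb2 (norm_nonneg _) (hp.U_nonneg _) (hp.V_nonneg _) (hp.ge _)
  have hT1 : 0 ≤ 1 / T := by positivity
  have key2 := mul_le_mul_of_nonneg_left key hT1
  rw [mul_add] at key2
  have e5 : c * ((1 / T) * (∫ t in (0 : ℝ)..T, ‖riemannZeta (1 / 2 + t * Complex.I)‖ ^ (b + 2))) ≤
      (C2 * C + C2 + C4 * C + C4) * X := by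
    calc c * ((1 / T) * (∫ t in (0 : ℝ)..T, ‖riemannZeta (1 / 2 + t * Complex.I)‖ ^ (b + 2)))
        = (1 / T) * (c * ∫ t in (0 : ℝ)..T, ‖riemannZeta (1 / 2 + t * Complex.I)‖ ^ (b + 2)) := by ring
      _ ≤ _ := by linarith
  have e6 := mul_le_mul_of_nonneg_left e5 (inv_pos.2 hc).le
  rw [inv_mul_cancel_left₀ hc.ne'] at e6
  linarith

end Pool.Agent.LibST15
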