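import Mathlib
import Pool.Agent.LibST15.Upper
import Pool.Agent.LibST15.TailAbs2

/-! # The mean value with an average of translates -/

set_option autoImplicit false

namespace Pool.Agent.LibST15

open MeasureTheory Filter Topology Pool.Agent.LibMM99 Pool.Agent.LibTG78
open scoped ComplexConjugate

/-- T4 -/
theorem tail_bound {b : ℝ} (hb : 0 < b) (hb2 : b ≤ 2) {φ : ℝ → ℂ} (hc : Continuous φ)
    (hφ : ∀ N : ℕ, ∃ C : ℝ, ∀ u : ℝ, (1 + |u|) ^ N * ‖φ u‖ ≤ C) :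
    ∃ C A : ℝ, 0 < C ∧ 1 ≤ A ∧ ∀ T h : ℝ, A ≤ T → 0 < h → h ≤ 1 →
    (1 / T) * (∫ t in (0 : ℝ)..T, ‖riemannZeta (1 / 2 + t * Complex.I)‖ ^ 2 *
      (∫ u : ℝ, ‖riemannZeta (1 / 2 + ((t + h * u : ℝ) : ℂ) * Complex.I)‖ * ‖φ u‖) ^ b) ≤
      C * Real.log T ^ (gam b + 1) := by
  obtain ⟨C0, T0, hC0, _, h⟩ := upper_k hb hb2
  have hgp : 0 < gam b := by unfold gam; positivity
  have hev : ∀ t : ℝ, ‖riemannZeta (1 / 2 + ((-t : ℝ) : ℂ) * Complex.I)‖ = ‖riemannZeta (1 / 2 + t * Complex.I)‖ := by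
    intro t
    have h1 : (1 / 2 + ((-t : ℝ) : ℂ) * Complex.I) = conj (1 / 2 + (t : ℂ) * Complex.I) := by
      simp [Complex.ext_iff]
    rw [h1, riemannZeta_conj, RCLike.norm_conj]
  exact tail_abs (z := fun t => ‖riemannZeta (1 / 2 + t * Complex.I)‖) (w := fun u => ‖φ u‖) D5_zeta_cont.norm
    (fun _ => norm_nonneg _) hev hc.norm (fun _ => norm_nonneg _) hφ hb (by linarith) hC0 h

end Pool.Agent.LibST15
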